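import Pool.Agent.Lib.MP_61ed4e_co.Data0

/-!
# Kernel checks, blocks 1 to 16
-/

namespace Pool.Agent.Lib.MP_61ed4e_co

set_option maxRecDepth 100000

/-- The check of the block with `1` free cells in the last row. -/
theorem c1 : check 0 S1 S0 (ors 0 [S0]) false = true := by
  decide +kernel

/-- The check of the block with `2` free cells in the last row. -/
theorem c2 : check 1 S2 S1 (ors 0 [S1, S0]) false = true := by
  decide +kernel

/-- The check of the block with `3` free cells in the last row. -/
theorem c3 : check 2 S3 S2 (ors 0 [S2, S1, S0]) false = true := by
  decide +kernel

/-- The check of the block with `4` free cells in the last row. -/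
theorem c4 : check 3 S4 S3 (ors 0 [S3, S2, S1, S0]) false = true := by
  decide +kernel

/-- The check of the block with `5` free cells in the last row. -/
theorem c5 : check 4 S5 S4 (ors 0 [S4, S3, S2, S1, S0]) false = true := by
  decide +kernel

/-- The check of the block with `6` free cells in the last row. -/
theorem c6 : check 5 S6 S5 (ors 0 [S5, S4, S3, S2, S1, S0]) false = true := by
  decide +kernel

/-- The check of the block with `7` free cells in the last row. -/
theorem c7 : check 6 S7 S6 (ors 0 [S6, S5, S4, S3, S2, S1, S0]) false = true := by
  decide +kernel

/-- The check of the block with `8` free cells in the last row. -/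
theorem c8 : check 7 S8 S7 (ors 0 [S7, S6, S5, S4, S3, S2, S1, S0]) false = true := by
  decide +kernel

/-- The check of the block with `9` free cells in the last row. -/
theorem c9 : check 8 S9 S8 (ors 0 [S8, S7, S6, S5, S4, S3, S2, S1, S0]) false = true := by
  decide +kernel

/-- The check of the block with `10` free cells in the last row. -/
theorem c10 : check 9 S10 S9 (ors 0 [S9, S8, S7, S6, S5, S4, S3, S2, S1, S0]) false = true := by
  decide +kernel

/-- The check of the block with `11` free cells in the last row. -/
theorem c11 : check 10 S11 S10 (ors 0 [S10, S9, S8, S7, S6, S5, S4, S3, S2, S1, S0]) false = true := by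
  decide +kernel

/-- The check of the block with `12` free cells in the last row. -/
theorem c12 : check 11 S12 S11 (ors 0 [S11, S10, S9, S8, S7, S6, S5, S4, S3, S2, S1, S0]) false = true := by
  decide +kernel

/-- The check of the block with `13` free cells in the last row. -/
theorem c13 : check 12 S13 S12 (ors 0 [S12, S11, S10, S9, S8, S7, S6, S5, S4, S3, S2, S1, S0]) false = true := by
  decide +kernel

/-- The check of the block with `14` free cells in the last row. -/
theorem c14 : check 13 S14 S13 (ors 0 [S13, S12, S11, S10, S9, S8, S7, S6, S5, S4, S3, S2, S1, S0]) false = true := by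
  decide +kernel

/-- The check of the block with `15` free cells in the last row. -/
theorem c15 : check 14 S15 S14 (ors 0 [S14, S13, S12, S11, S10, S9, S8, S7, S6, S5, S4, S3, S2, S1, S0]) false = true := by
  decide +kernel

/-- The check of the block with `16` free cells in the last row. -/
theorem c16 : check 15 S16 S15 (ors 0 [S15, S14, S13, S12, S11, S10, S9, S8, S7, S6, S5, S4, S3, S2, S1, S0]) false = true := by
  decide +kernel

end Pool.Agent.Lib.MP_61ed4e_co
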