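import Pool.Agent.Lib.MP_61ed4e_co.Data0
import Pool.Agent.Lib.MP_61ed4e_co.Data1
import Pool.Agent.Lib.MP_61ed4e_co.Data2

/-!
# Kernel checks, blocks 20 to 20
-/

namespace Pool.Agent.Lib.MP_61ed4e_co

set_option maxRecDepth 100000

/-- The check of the block with `20` free cells in the last row. -/
theorem c20 : check 19 S20 S19 (ors 0 [S19, S18, S17, S16, S15, S14, S13, S12, S11, S10, S9, S8, S7, S6, S5, S4, S3, S2, S1, S0]) false = true := by
  decide +kernel

end Pool.Agent.Lib.MP_61ed4e_co
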