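import Pool.Agent.Lib.MP_61ed4e_co.Data0
import Pool.Agent.Lib.MP_61ed4e_co.Data1
import Pool.Agent.Lib.MP_61ed4e_co.Data2
import Pool.Agent.Lib.MP_61ed4e_co.Data3

/-!
# Kernel checks, blocks 21 to 21
-/

namespace Pool.Agent.Lib.MP_61ed4e_co

set_option maxRecDepth 100000

/-- The check of the block with `21` free cells in the last row. -/
theorem c21 : check 20 S21 S20 (ors 0 [S20, S19, S18, S17, S16, S15, S14, S13, S12, S11, S10, S9, S8, S7, S6, S5, S4, S3, S2, S1, S0]) false = true := by
  decide +kernel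

end Pool.Agent.Lib.MP_61ed4e_co
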