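import Mathlib

/-!
# A bit-parallel checker for the kernel of a game on Young diagrams

Everything here is written so that Lean's kernel can evaluate it quickly: sets of positions are
natural numbers, and all the work is done by shifts, conjunctions and disjunctions.
-/

namespace Pool.Agent.Lib.MP_61ed4e_co

/-- The number whose lowest `n` bits are set. -/
def ones (n : ℕ) : ℕ := Nat.sub (Nat.shiftLeft 1 n) 1

/-- Prefix sums. -/
def psum : ℕ → List ℕ → List ℕ
  | _, [] => []
  | acc, x :: xs => Nat.add acc x :: psum (Nat.add acc x) xs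

/-- The rows `r, psum r, psum (psum r), …` (`n + 1` of them). -/
def table : ℕ → List ℕ → List (List ℕ)
  | 0, r => [r]
  | n + 1, r => r :: table n (psum 0 r)

/-- A list of `n` ones. -/
def row0 : ℕ → List ℕ
  | 0 => []
  | n + 1 => 1 :: row0 n

/-- Head with default. -/
def hd (d : ℕ) : List ℕ → ℕ
  | [] => d
  | x :: _ => x

/-- Tail. -/
def tl {α : Type} : List α → List α
  | [] => []
  | _ :: xs => xs

/-- Tails of all rows. -/
def tls : List (List ℕ) → List (List ℕ)
  | [] => []
  | r :: rs => tl r :: tls rs

/-- Last entry, with default. -/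
def lst {α : Type} : α → List α → α
  | d, [] => d
  | _, x :: xs => lst x xs

/-- Add one more row to a family of bit vectors. -/
def lift : ℕ → List ℕ → List ℕ → List ℕ
  | _, [], _ => []
  | _, _ :: _, [] => []
  | acc, o :: os, x :: xs =>
      Nat.lor acc (Nat.shiftLeft x o) :: lift (Nat.lor acc (Nat.shiftLeft x o)) os xs

/-- Constant list of the length of the given list. -/
def cst (b : ℕ) : List ℕ → List ℕ
  | [] => []
  | _ :: xs => b :: cst b xs

/-- Add all remaining rows. -/
def lifts : List (List ℕ) → List ℕ → List ℕ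
  | [], l => l
  | r :: rs, l => lifts rs (lift 0 r l)

/-- Shift amounts and masks. -/
def masks : List (List ℕ) → List (ℕ × ℕ)
  | [] => []
  | [_] => []
  | r :: r' :: rs =>
      (hd 0 r, lst 0 (lifts rs (cst (Nat.shiftLeft (ones (hd 0 r)) (hd 0 r')) (tl r)))) ::
        masks (r' :: rs)

/-- One step of the vertical moves. -/
def stepR (s : ℕ) : List (ℕ × ℕ) → List ℕ → List ℕ
  | [], _ => []
  | _ :: _, [] => []
  | (d, k) :: ms, r :: rs => Nat.land (Nat.shiftLeft (Nat.lor s r) d) k :: stepR s ms rs

/-- One step of the horizontal moves, from the last row to the first one. -/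
def stepT (s t : ℕ) : List (ℕ × ℕ) → List ℕ
  | [] => []
  | (d, k) :: ms =>
      Nat.land (Nat.shiftLeft (Nat.lor s (hd t (stepT s t ms))) d) k :: stepT s t ms

/-- Only the first row moves, by one. -/
def stepF (s : ℕ) : List (ℕ × ℕ) → List ℕ
  | [] => []
  | (d, k) :: _ => [Nat.land (Nat.shiftLeft s d) k]

/-- Disjunction of a list. -/
def ors : ℕ → List ℕ → ℕ
  | acc, [] => acc
  | acc, x :: xs => ors (Nat.lor acc x) xs

/-- All moves into `s`. -/
def run (s t : ℕ) (full : Bool) : ℕ → List (List ℕ) → List ℕ → ℕ → ℕ
  | 0, rows, R, tot =>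
      ors (ors tot (stepR s (tl (masks rows)) R))
        (bif full then stepF s (masks rows) else stepT s t (masks rows))
  | n + 1, rows, R, tot =>
      run s t full n (tls rows) (stepR s (tl (masks rows)) R)
        (ors (ors tot (stepR s (tl (masks rows)) R)) (stepT s 0 (masks rows)))

/-- The check for the block where the last row has `n + 1` free cells. -/
def check (n : ℕ) (s t u : ℕ) (full : Bool) : Bool :=
  (fun x => Nat.beq (Nat.land x s) 0 &&
    Nat.beq (Nat.lor x s) (ones (lst 0 (lst [] (table 8 (row0 (n + 2)))))))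
    (Nat.lor (run s t full n (table 8 (row0 (n + 2))) [0, 0, 0, 0, 0, 0, 0] 0) u)

/-- Concatenate chunks of `32768` bits. -/
def cat : List ℕ → ℕ
  | [] => 0
  | c :: cs => Nat.lor c (Nat.shiftLeft (cat cs) 32768)

end Pool.Agent.Lib.MP_61ed4e_co
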