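import Mathlib

/-!
# The monotonic sequence game on the rationals

Definitions only.
-/

namespace Pool.Agent.Lib.MP_61ed4e_co

/-- `l` contains a strictly increasing subsequence of length `a` (not necessarily consecutive). -/
def HasInc (a : ℕ) (l : List ℚ) : Prop :=
  ∃ s : List ℚ, s.Sublist l ∧ s.length = a ∧ s.Pairwise (fun x y => x < y)

/-- `l` contains a strictly decreasing subsequence of length `d` (not necessarily consecutive). -/
def HasDec (d : ℕ) (l : List ℚ) : Prop :=
  ∃ s : List ℚ, s.Sublist l ∧ s.length = d ∧ s.Pairwise (fun x y => y < x)

/-- The game with parameters `a, d` is over when the sequence `l` of the numbers chosen so far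
(in the order of the moves) contains an increasing subsequence of length `a` or a decreasing
subsequence of length `d`. -/
def Over (a d : ℕ) (l : List ℚ) : Prop := HasInc a l ∨ HasDec d l

/-- `MoverWins a d l`: in the normal-play game with parameters `a, d`, at the unfinished position
where the numbers `l` have been chosen (in this order), the player to move has a winning strategy.
He either chooses a new number which ends the game at once (and wins), or he chooses a new number
`q` which does not end the game such that, whatever new number `r` the opponent then chooses,
the game does not end by this move and the resulting position is again winning for the player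
to move. -/
inductive MoverWins (a d : ℕ) : List ℚ → Prop
  | now (l : List ℚ) (q : ℚ) (hq : q ∉ l) (h : Over a d (l ++ [q])) : MoverWins a d l
  | later (l : List ℚ) (q : ℚ) (hq : q ∉ l) (h : ¬ Over a d (l ++ [q]))
      (hr : ∀ r : ℚ, r ∉ l ++ [q] → ¬ Over a d (l ++ [q] ++ [r]))
      (hw : ∀ r : ℚ, r ∉ l ++ [q] → MoverWins a d (l ++ [q] ++ [r])) : MoverWins a d l

/-- The first player has a winning strategy in the normal-play game: type `N`. -/
def FirstPlayerWins (a d : ℕ) : Prop := MoverWins a d []

/-- The second player has a winning strategy in the normal-play game: type `P`.  Whatever number
`q` the first player chooses first, the game is not over and the second player, who is to move,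
can force a win. -/
def SecondPlayerWins (a d : ℕ) : Prop := ∀ q : ℚ, ¬ Over a d [q] ∧ MoverWins a d [q]

end Pool.Agent.Lib.MP_61ed4e_co
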