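import Pool.Agent.Lib.MP_61ed4e_co.Sound2

/-!
# The kernel property from the checks of all blocks
-/

namespace Pool.Agent.Lib.MP_61ed4e_co

/-- The list `f n, …, f 0`. -/
def down (f : ℕ → ℕ) : ℕ → List ℕ
  | 0 => [f 0]
  | n + 1 => f (n + 1) :: down f n

lemma down_congr {f g : ℕ → ℕ} : ∀ n, (∀ i, i ≤ n → f i = g i) → down f n = down g n
  | 0, h => by simp [down, h 0 le_rfl]
  | n + 1, h => by
      simp only [down]
      rw [h (n + 1) le_rfl, down_congr n (fun i hi => h i (by omega))]

lemma mem_down {f : ℕ → ℕ} {x : ℕ} : ∀ n, x ∈ down f n ↔ ∃ i, i ≤ n ∧ x = f i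
  | 0 => by simp [down]
  | n + 1 => by
      simp only [down, List.mem_cons]
      rw [mem_down n]
      constructor
      · rintro (h | ⟨i, hi, h⟩)
        · exact ⟨n + 1, le_rfl, h⟩
        · exact ⟨i, by omega, h⟩
      · rintro ⟨i, hi, h⟩
        rcases eq_or_ne i (n + 1) with rfl | hne
        · exact Or.inl h
        · exact Or.inr ⟨i, by omega, h⟩

/-- The checks of the blocks `1, …, n` succeed for the list `S_n, …, S_0`. -/
inductive Good : ℕ → List ℕ → Prop
  | zero (s : ℕ) : s = 1 → Good 0 [s]
  | succ (n s s' : ℕ) (l : List ℕ) (full : Bool) : Good n (s' :: l) →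
      (full = true ↔ n = 22) → check n s s' (ors 0 (s' :: l)) full = true →
      Good (n + 1) (s :: s' :: l)

lemma Good.exists_fun {n : ℕ} {l : List ℕ} (h : Good n l) : ∃ f : ℕ → ℕ, l = down f n ∧ f 0 = 1 ∧
    ∀ m, m < n → ∃ full : Bool, (full = true ↔ m = 22) ∧
      check m (f (m + 1)) (f m) (ors 0 (down f m)) full = true := by
  induction h with
  | zero s hs => exact ⟨fun _ => s, rfl, hs, fun m hm => by omega⟩
  | succ n s s' l full hg hf hc ih =>
      obtain ⟨f, h1, h2, h3⟩ := ih
      have hs' : s' = f n := by
        cases n with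
        | zero => simp only [down, List.cons.injEq] at h1; exact h1.1
        | succ n => simp only [down, List.cons.injEq] at h1; exact h1.1
      have hd : ∀ m, m ≤ n → down (Function.update f (n + 1) s) m = down f m :=
        fun m hm => down_congr m (fun i hi => Function.update_of_ne (by omega) _ _)
      refine ⟨Function.update f (n + 1) s, ?_, ?_, ?_⟩
      · simp only [down]
        rw [Function.update_self, hd n le_rfl, ← h1]
      · rw [Function.update_of_ne (by omega)]
        exact h2
      · intro m hm
        rcases eq_or_ne m n with rfl | hne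
        · refine ⟨full, hf, ?_⟩
          rw [Function.update_self, Function.update_of_ne (by omega), hd m le_rfl, ← h1, ← hs']
          exact hc
        · obtain ⟨full', hf', hc'⟩ := h3 m (by omega)
          refine ⟨full', hf', ?_⟩
          rw [Function.update_of_ne (by omega), Function.update_of_ne (by omega), hd m (by omega)]
          exact hc'

/-- The moves of the game on Young diagrams, in terms of the numbers of free cells
`μ 0 ≤ μ 1 ≤ ⋯ ≤ μ 8` of the nine rows (each with `23` cells). -/
def MoveOK (μ : ℕ → ℕ) (J y : ℕ) : Prop :=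
  J ≤ 8 ∧ y < μ J ∧ ((y + 1 = μ J ∧ μ J ≤ 22) ∨ (1 ≤ J ∧ μ (J - 1) ≤ y) ∨
    ((∀ i, i ≤ 8 → μ i = 23) ∧ J = 0 ∧ y = 22))

/-- Membership in the kernel. -/
def PP (f : ℕ → ℕ) (μ : ℕ → ℕ) : Prop := (f (μ 8)).testBit (rank 8 μ) = true

lemma rank_zero : ∀ (k : ℕ) (μ : ℕ → ℕ), (∀ i, i < k → μ i = 0) → rank k μ = 0
  | 0, _, _ => rfl
  | k + 1, μ, h => by
      simp only [rank]
      rw [rank_zero k μ (fun i hi => h i (by omega)), h k (by omega), c_zero]

lemma mv_of_low {μ : ℕ → ℕ} {J y v : ℕ} (hl : Low J v μ) (hy : y < v)
    (h : ∀ i, i < J → μ i ≤ y) : mv J y μ = Function.update μ J y := by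
  funext i
  unfold mv
  rcases lt_trichotomy i J with h' | rfl | h'
  · rw [Function.update_of_ne (by omega), if_pos (by omega)]
    exact min_eq_left (h i h')
  · rw [Function.update_self, if_pos le_rfl, hl.1]
    omega
  · rw [Function.update_of_ne (by omega), if_neg (by omega)]

lemma exists_low {μ : ℕ → ℕ} (hμ : Bd 9 23 μ) {J v : ℕ} (hJ : J ≤ 8) (hv : μ J = v) :
    ∃ j, j ≤ J ∧ Low j v μ ∧ ∀ i, j ≤ i → i ≤ J → μ i = v := by
  classical
  have hex : ∃ j, μ j = v := ⟨J, hv⟩
  have h1 := Nat.find_spec hex
  have h2 : Nat.find hex ≤ J := Nat.find_le hv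
  refine ⟨Nat.find hex, h2, ⟨h1, fun i hi => ?_⟩, fun i hi hi' => ?_⟩
  · have h3 := Nat.find_min hex hi
    have h4 := hμ.1 i J (by omega) (by omega)
    omega
  · have h3 := hμ.1 (Nat.find hex) i hi (by omega)
    have h4 := hμ.1 i J hi' (by omega)
    omega

/-- The kernel property. -/
theorem kernel_of_good {l : List ℕ} (h : Good 23 l) : ∃ f : ℕ → ℕ, l = down f 23 ∧
    ∀ μ, Bd 9 23 μ → (PP f μ ↔ ∀ J y, MoveOK μ J y → ¬ PP f (mv J y μ)) := by
  obtain ⟨f, hl, h0, hf⟩ := h.exists_fun
  refine ⟨f, hl, fun μ hμ => ?_⟩
  have hsize : ∀ y, y ≤ 23 → f y < 2 ^ N 8 y := by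
    intro y hy
    cases y with
    | zero =>
        rw [h0]
        have : N 8 0 = 1 := by decide
        rw [this]
        norm_num
    | succ y =>
        obtain ⟨full, _, hc⟩ := hf y (by omega)
        exact (check_sound _ _ _ _ _ hc).1
  have hμ8 : ∀ i, i ≤ 8 → μ i ≤ μ 8 := fun i hi => hμ.1 i 8 hi (by norm_num)
  have hb : Bd 8 (μ 8) μ := ⟨fun i j hij hj => hμ.1 i j hij (by omega), fun i hi => hμ8 i hi.le⟩
  have h823 : μ 8 ≤ 23 := hμ.2 8 (by norm_num)
  rcases Nat.eq_zero_or_pos (μ 8) with hz | hz
  · have hall : ∀ i, i ≤ 8 → μ i = 0 := fun i hi => by have := hμ8 i hi; omega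
    constructor
    · rintro - J y ⟨hJ, hy, _⟩
      have := hall J hJ
      omega
    · intro _
      unfold PP
      rw [hz, h0, rank_zero 8 μ (fun i hi => hall i hi.le)]
      decide
  · obtain ⟨n, hn⟩ : ∃ n, μ 8 = n + 1 := ⟨μ 8 - 1, by omega⟩
    obtain ⟨full, hfull, hc⟩ := hf n (by omega)
    have hs := (check_sound _ _ _ _ _ hc).2 μ (by rwa [hn] at hb)
    have e1 : PP f μ ↔ (f (n + 1)).testBit (rank 8 μ) = true := by
      unfold PP
      rw [hn]
    rw [e1, hs]
    have key : (RunP (f (n + 1)) (f n) full 0 n μ ∨
        (ors 0 (down f n)).testBit (rank 8 μ) = true) ↔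
        ∃ J y, MoveOK μ J y ∧ PP f (mv J y μ) := by
      constructor
      · rintro ((⟨w, _, hw, j, hj, hj', hlow, y, hy, hy', ht⟩ | ⟨w, _, hw, j, hj, hlow, ht⟩ |
          (⟨hfl, hlow, ht⟩ | ⟨hfl, j, hj, hlow, ht⟩)) | ht)
        · refine ⟨j, y, ⟨by omega, by rw [hlow.1]; exact hy, Or.inr (Or.inl ⟨hj, ?_⟩)⟩, ?_⟩
          · exact hy' (j - 1) (by omega)
          · unfold PP
            rw [mv_of_low hlow hy hy', Function.update_of_ne (by omega), hn]
            exact ht
        · rcases ht with ⟨J, h1, h2, h3, h4⟩ | ⟨h1, h2⟩
          · refine ⟨J, w, ⟨by omega, ?_, Or.inl ⟨?_, ?_⟩⟩, ?_⟩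
            · rw [h3 J h1 le_rfl]; omega
            · rw [h3 J h1 le_rfl]
            · rw [h3 J h1 le_rfl]; omega
            · unfold PP
              have : mv J w μ 8 = n + 1 := by
                unfold mv
                rw [if_neg (by omega), hn]
              rw [this]
              exact h4
          · simp at h2
        · have hn22 : n = 22 := hfull.1 hfl
          subst hn22
          have hall : ∀ i, i ≤ 8 → μ i = 23 := by
            intro i hi
            have h1 := hlow.1
            have h2 := hμ.1 0 i (by omega) (by omega)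
            have h3 := hμ.2 i (by omega)
            omega
          refine ⟨0, 22, ⟨by omega, by rw [hall 0 (by omega)]; omega,
            Or.inr (Or.inr ⟨hall, rfl, rfl⟩)⟩, ?_⟩
          unfold PP
          have hm := mv_self hlow
          rw [Nat.zero_add] at ht
          rw [hm, Function.update_of_ne (by omega), hn]
          exact ht
        · have hn22 : n ≠ 22 := fun h => by rw [hfull.2 h] at hfl; simp at hfl
          rw [Nat.zero_add] at hlow ht
          rcases ht with ⟨J, h1, h2, h3, h4⟩ | ⟨h1, h2⟩
          · refine ⟨J, n, ⟨by omega, ?_, Or.inl ⟨?_, ?_⟩⟩, ?_⟩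
            · rw [h3 J h1 le_rfl]; omega
            · rw [h3 J h1 le_rfl]
            · rw [h3 J h1 le_rfl]; omega
            · unfold PP
              have : mv J n μ 8 = n + 1 := by
                unfold mv
                rw [if_neg (by omega), hn]
              rw [this]
              exact h4
          · refine ⟨8, n, ⟨le_rfl, by omega, Or.inl ⟨by omega, by omega⟩⟩, ?_⟩
            unfold PP
            have : mv 8 n μ 8 = n := by
              unfold mv
              rw [if_pos le_rfl, hn]
              omega
            rw [this]
            exact h2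
        · rw [testBit_ors] at ht
          simp only [Nat.zero_testBit, Bool.false_eq_true, false_or, mem_down] at ht
          obtain ⟨x, ⟨y, hy, rfl⟩, ht⟩ := ht
          have h7 : μ 7 ≤ y := by
            by_contra hcon
            have h1 := c_mono 7 (show y + 1 ≤ μ 7 by omega)
            rw [c_succ] at h1
            have h2 := rank_ge 7 μ
            have h3 : (f y).testBit (rank 8 μ) = false := by
              apply Nat.testBit_lt_two_pow
              exact (hsize y (by omega)).trans_le
                (Nat.pow_le_pow_right (by norm_num) (h1.trans h2))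
            rw [h3] at ht
            simp at ht
          refine ⟨8, y, ⟨le_rfl, by omega, Or.inr (Or.inl ⟨by norm_num, h7⟩)⟩, ?_⟩
          unfold PP
          have e2 : mv 8 y μ 8 = y := by
            unfold mv
            rw [if_pos le_rfl]
            omega
          have e3 : rank 8 (mv 8 y μ) = rank 8 μ := by
            apply rank_congr
            intro i hi
            unfold mv
            rw [if_pos (by omega)]
            have := hμ.1 i 7 (by omega) (by norm_num)
            omega
          rw [e2, e3]
          exact ht
      · rintro ⟨J, y, ⟨hJ, hy, hcase⟩, hP⟩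
        -- the case where only row `J` changes
        have hV : 1 ≤ J → μ (J - 1) ≤ y → (RunP (f (n + 1)) (f n) full 0 n μ ∨
            (ors 0 (down f n)).testBit (rank 8 μ) = true) := by
          intro h1 h2
          have h3 : ∀ i, i < J → μ i ≤ y := fun i hi =>
            (hμ.1 i (J - 1) (by omega) (by omega)).trans h2
          rcases eq_or_ne J 8 with rfl | hJ8
          · right
            rw [testBit_ors]
            right
            refine ⟨f y, (mem_down n).2 ⟨y, by omega, rfl⟩, ?_⟩
            unfold PP at hP
            have e2 : mv 8 y μ 8 = y := by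
              unfold mv
              rw [if_pos le_rfl]
              omega
            have e3 : rank 8 (mv 8 y μ) = rank 8 μ := by
              apply rank_congr
              intro i hi
              unfold mv
              rw [if_pos (by omega)]
              have := h3 i hi
              omega
            rw [e2, e3] at hP
            exact hP
          · left; left
            have hJn : μ J ≤ n + 1 := by have := hμ8 J hJ; omega
            have hlow : Low J (μ J) μ := ⟨rfl, fun i hi => by have := h3 i hi; omega⟩
            refine ⟨μ J - 1, by omega, by omega, J, h1, by omega, ?_⟩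
            rw [show μ J - 1 + 1 = μ J by omega]
            refine ⟨hlow, y, hy, h3, ?_⟩
            unfold PP at hP
            rw [mv_of_low hlow hy h3, Function.update_of_ne (by omega), hn] at hP
            exact hP
        rcases hcase with ⟨h1, h2⟩ | ⟨h1, h2⟩ | ⟨h1, rfl, rfl⟩
        · obtain ⟨j, hj, hlow, heq⟩ := exists_low hμ hJ h1.symm
          have hJn : μ J ≤ n + 1 := by have := hμ8 J hJ; omega
          rcases Nat.lt_or_ge y n with hyn | hyn
          · have hJ8 : J ≠ 8 := by rintro rfl; omega
            refine Or.inl (Or.inr (Or.inl ⟨y, by omega, by omega, j, by omega, hlow, Or.inl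
              ⟨J, hj, by omega, heq, ?_⟩⟩))
            unfold PP at hP
            have : mv J y μ 8 = n + 1 := by
              unfold mv
              rw [if_neg (by omega), hn]
            rwa [this] at hP
          · have hyn' : y = n := by omega
            subst hyn'
            have hfl : full = false := by
              rw [← Bool.not_eq_true, hfull]
              omega
            rcases eq_or_ne J 8 with rfl | hJ8
            · rcases eq_or_ne j 8 with rfl | hj8
              · apply hV (by norm_num)
                have := hlow.2 7 (by norm_num)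
                simp only [Nat.add_one_sub_one] at *
                omega
              · refine Or.inl (Or.inr (Or.inr (Or.inr ⟨hfl, j, by omega, ?_⟩)))
                rw [Nat.zero_add]
                refine ⟨hlow, Or.inr ⟨fun i hi hi' => heq i hi (by omega), ?_⟩⟩
                unfold PP at hP
                have : mv 8 y μ 8 = y := by
                  unfold mv
                  rw [if_pos le_rfl, hn]
                  omega
                rwa [this] at hP
            · refine Or.inl (Or.inr (Or.inr (Or.inr ⟨hfl, j, by omega, ?_⟩)))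
              rw [Nat.zero_add]
              refine ⟨hlow, Or.inl ⟨J, hj, by omega, heq, ?_⟩⟩
              unfold PP at hP
              have : mv J y μ 8 = y + 1 := by
                unfold mv
                rw [if_neg (by omega), hn]
              rwa [this] at hP
        · exact hV h1 h2
        · have hn22 : n = 22 := by have := h1 8 le_rfl; omega
          subst hn22
          have hlow : Low 0 (22 + 1) μ := ⟨h1 0 (by norm_num), fun i hi => by omega⟩
          refine Or.inl (Or.inr (Or.inr (Or.inl ⟨hfull.2 rfl, ?_⟩)))
          rw [Nat.zero_add]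
          refine ⟨hlow, ?_⟩
          unfold PP at hP
          rw [mv_self hlow, Function.update_of_ne (by omega), hn] at hP
          exact hP
    rw [key]
    push Not
    rfl

end Pool.Agent.Lib.MP_61ed4e_co
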