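import Pool.Agent.Lib.MP_61ed4e_co.Kernel

/-!
# Labels of the elements of a sequence

Sequences are written here with the newest element first.
-/

namespace Pool.Agent.Lib.MP_61ed4e_co

/-- The length of a longest increasing subsequence ending at `q`, if `q` is played after `L`
(newest element of `L` first). -/
def labI : List ℚ → ℚ → ℕ
  | [], _ => 1
  | x :: L, q => if x < q then max (labI L x + 1) (labI L q) else labI L q

/-- The length of a longest decreasing subsequence ending at `q`. -/
def labJ : List ℚ → ℚ → ℕ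
  | [], _ => 1
  | x :: L, q => if q < x then max (labJ L x + 1) (labJ L q) else labJ L q

/-- The elements with their labels. -/
def ent : List ℚ → List (ℚ × ℕ × ℕ)
  | [] => []
  | x :: L => (x, labI L x, labJ L x) :: ent L

lemma labI_pos : ∀ (L : List ℚ) (q : ℚ), 1 ≤ labI L q
  | [], _ => le_rfl
  | x :: L, q => by
      have := labI_pos L q
      simp only [labI]
      split_ifs
      · exact this.trans (le_max_right _ _)
      · exact this

lemma labJ_pos : ∀ (L : List ℚ) (q : ℚ), 1 ≤ labJ L q
  | [], _ => le_rfl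
  | x :: L, q => by
      have := labJ_pos L q
      simp only [labJ]
      split_ifs
      · exact this.trans (le_max_right _ _)
      · exact this

lemma labI_le_cons (x : ℚ) (L : List ℚ) (q : ℚ) : labI L q ≤ labI (x :: L) q := by
  simp only [labI]
  split_ifs
  · exact le_max_right _ _
  · exact le_rfl

lemma labJ_le_cons (x : ℚ) (L : List ℚ) (q : ℚ) : labJ L q ≤ labJ (x :: L) q := by
  simp only [labJ]
  split_ifs
  · exact le_max_right _ _
  · exact le_rfl

lemma labI_gt : ∀ (L : List ℚ) (q : ℚ) (e : ℚ × ℕ × ℕ), e ∈ ent L → e.1 < q →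
    e.2.1 + 1 ≤ labI L q
  | [], _, _, h, _ => by simp [ent] at h
  | x :: L, q, e, h, hq => by
      simp only [ent, List.mem_cons] at h
      rcases h with rfl | h
      · simp only [labI]
        rw [if_pos hq]
        exact le_max_left _ _
      · exact (labI_gt L q e h hq).trans (labI_le_cons x L q)

lemma labJ_gt : ∀ (L : List ℚ) (q : ℚ) (e : ℚ × ℕ × ℕ), e ∈ ent L → q < e.1 →
    e.2.2 + 1 ≤ labJ L q
  | [], _, _, h, _ => by simp [ent] at h
  | x :: L, q, e, h, hq => by
      simp only [ent, List.mem_cons] at h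
      rcases h with rfl | h
      · simp only [labJ]
        rw [if_pos hq]
        exact le_max_left _ _
      · exact (labJ_gt L q e h hq).trans (labJ_le_cons x L q)

lemma labI_ex : ∀ (L : List ℚ) (q : ℚ),
    labI L q = 1 ∨ ∃ e ∈ ent L, e.1 < q ∧ labI L q = e.2.1 + 1
  | [], _ => Or.inl rfl
  | x :: L, q => by
      have ih := labI_ex L q
      have ih' : labI (x :: L) q = labI L q →
          (labI (x :: L) q = 1 ∨ ∃ e ∈ ent (x :: L), e.1 < q ∧ labI (x :: L) q = e.2.1 + 1) := by
        intro h
        rw [h]
        rcases ih with ih | ⟨e, he, h1, h2⟩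
        · exact Or.inl ih
        · exact Or.inr ⟨e, List.mem_cons_of_mem _ he, h1, h2⟩
      by_cases hx : x < q
      · rcases le_total (labI L x + 1) (labI L q) with h | h
        · apply ih'
          simp only [labI]
          rw [if_pos hx, max_eq_right h]
        · right
          refine ⟨(x, labI L x, labJ L x), List.mem_cons_self, hx, ?_⟩
          simp only [labI]
          rw [if_pos hx, max_eq_left h]
      · apply ih'
        simp only [labI]
        rw [if_neg hx]

lemma labJ_ex : ∀ (L : List ℚ) (q : ℚ),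
    labJ L q = 1 ∨ ∃ e ∈ ent L, q < e.1 ∧ labJ L q = e.2.2 + 1
  | [], _ => Or.inl rfl
  | x :: L, q => by
      have ih := labJ_ex L q
      have ih' : labJ (x :: L) q = labJ L q →
          (labJ (x :: L) q = 1 ∨ ∃ e ∈ ent (x :: L), q < e.1 ∧ labJ (x :: L) q = e.2.2 + 1) := by
        intro h
        rw [h]
        rcases ih with ih | ⟨e, he, h1, h2⟩
        · exact Or.inl ih
        · exact Or.inr ⟨e, List.mem_cons_of_mem _ he, h1, h2⟩
      by_cases hx : q < x
      · rcases le_total (labJ L x + 1) (labJ L q) with h | h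
        · apply ih'
          simp only [labJ]
          rw [if_pos hx, max_eq_right h]
        · right
          refine ⟨(x, labI L x, labJ L x), List.mem_cons_self, hx, ?_⟩
          simp only [labJ]
          rw [if_pos hx, max_eq_left h]
      · apply ih'
        simp only [labJ]
        rw [if_neg hx]

lemma ent_mem : ∀ (L : List ℚ) (e : ℚ × ℕ × ℕ), e ∈ ent L → e.1 ∈ L
  | [], _, h => by simp [ent] at h
  | x :: L, e, h => by
      simp only [ent, List.mem_cons] at h
      rcases h with rfl | h
      · exact List.mem_cons_self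
      · exact List.mem_cons_of_mem _ (ent_mem L e h)

lemma ent_pos : ∀ (L : List ℚ) (e : ℚ × ℕ × ℕ), e ∈ ent L → 1 ≤ e.2.1 ∧ 1 ≤ e.2.2
  | [], _, h => by simp [ent] at h
  | x :: L, e, h => by
      simp only [ent, List.mem_cons] at h
      rcases h with rfl | h
      · exact ⟨labI_pos _ _, labJ_pos _ _⟩
      · exact ent_pos L e h

lemma ent_cmp : ∀ (L : List ℚ) (e f : ℚ × ℕ × ℕ), e ∈ ent L → f ∈ ent L → e.1 < f.1 →
    f.2.2 + 1 ≤ e.2.2 ∨ e.2.1 + 1 ≤ f.2.1
  | [], _, _, h, _, _ => by simp [ent] at h
  | x :: L, e, f, he, hf, h => by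
      simp only [ent, List.mem_cons] at he hf
      rcases he with rfl | he
      · rcases hf with rfl | hf
        · exact absurd h (lt_irrefl _)
        · exact Or.inl (labJ_gt L x f hf h)
      · rcases hf with rfl | hf
        · exact Or.inr (labI_gt L x e he h)
        · exact ent_cmp L e f he hf h

lemma ent_uniq : ∀ (L : List ℚ) (e f : ℚ × ℕ × ℕ), L.Nodup → e ∈ ent L → f ∈ ent L →
    e.1 = f.1 → e = f
  | [], _, _, _, h, _, _ => by simp [ent] at h
  | x :: L, e, f, hn, he, hf, h => by
      rw [List.nodup_cons] at hn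
      simp only [ent, List.mem_cons] at he hf
      rcases he with rfl | he
      · rcases hf with rfl | hf
        · rfl
        · have h' : x = f.1 := h
          exact absurd (h' ▸ ent_mem L f hf) hn.1
      · rcases hf with rfl | hf
        · have h' : e.1 = x := h
          exact absurd (h' ▸ ent_mem L e he) hn.1
        · exact ent_uniq L e f hn.2 he hf h

lemma ent_predI : ∀ (L : List ℚ) (e : ℚ × ℕ × ℕ), e ∈ ent L → 2 ≤ e.2.1 →
    ∃ f ∈ ent L, f.1 < e.1 ∧ f.2.1 + 1 = e.2.1
  | [], _, h, _ => by simp [ent] at h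
  | x :: L, e, he, h => by
      simp only [ent, List.mem_cons] at he
      rcases he with rfl | he
      · rcases labI_ex L x with h1 | ⟨f, hf, h1, h2⟩
        · simp only at h
          omega
        · exact ⟨f, List.mem_cons_of_mem _ hf, h1, h2.symm⟩
      · obtain ⟨f, hf, h1, h2⟩ := ent_predI L e he h
        exact ⟨f, List.mem_cons_of_mem _ hf, h1, h2⟩

lemma ent_predJ : ∀ (L : List ℚ) (e : ℚ × ℕ × ℕ), e ∈ ent L → 2 ≤ e.2.2 →
    ∃ f ∈ ent L, e.1 < f.1 ∧ f.2.2 + 1 = e.2.2
  | [], _, h, _ => by simp [ent] at h
  | x :: L, e, he, h => by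
      simp only [ent, List.mem_cons] at he
      rcases he with rfl | he
      · rcases labJ_ex L x with h1 | ⟨f, hf, h1, h2⟩
        · simp only at h
          omega
        · exact ⟨f, List.mem_cons_of_mem _ hf, h1, h2.symm⟩
      · obtain ⟨f, hf, h1, h2⟩ := ent_predJ L e he h
        exact ⟨f, List.mem_cons_of_mem _ hf, h1, h2⟩

/-- The largest first label among the elements with second label at least `r`. -/
def lam : List ℚ → ℕ → ℕ
  | [], _ => 0
  | x :: L, r => if r ≤ labJ L x then max (labI L x) (lam L r) else lam L r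

lemma lam_ge : ∀ (L : List ℚ) (r : ℕ) (e : ℚ × ℕ × ℕ), e ∈ ent L → r ≤ e.2.2 →
    e.2.1 ≤ lam L r
  | [], _, _, h, _ => by simp [ent] at h
  | x :: L, r, e, h, hr => by
      simp only [ent, List.mem_cons] at h
      simp only [lam]
      rcases h with rfl | h
      · rw [if_pos hr]
        exact le_max_left _ _
      · have := lam_ge L r e h hr
        split_ifs
        · exact this.trans (le_max_right _ _)
        · exact this

lemma lam_ex : ∀ (L : List ℚ) (r : ℕ), lam L r = 0 ∨ ∃ e ∈ ent L, r ≤ e.2.2 ∧ e.2.1 = lam L r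
  | [], _ => Or.inl rfl
  | x :: L, r => by
      have ih := lam_ex L r
      have ih' : lam (x :: L) r = lam L r →
          (lam (x :: L) r = 0 ∨ ∃ e ∈ ent (x :: L), r ≤ e.2.2 ∧ e.2.1 = lam (x :: L) r) := by
        intro h
        rw [h]
        rcases ih with ih | ⟨e, he, h1, h2⟩
        · exact Or.inl ih
        · exact Or.inr ⟨e, List.mem_cons_of_mem _ he, h1, h2⟩
      by_cases hx : r ≤ labJ L x
      · rcases le_total (labI L x) (lam L r) with h | h
        · apply ih'
          simp only [lam]
          rw [if_pos hx, max_eq_right h]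
        · right
          refine ⟨(x, labI L x, labJ L x), List.mem_cons_self, hx, ?_⟩
          simp only [lam]
          rw [if_pos hx, max_eq_left h]
      · apply ih'
        simp only [lam]
        rw [if_neg hx]

lemma lam_anti (L : List ℚ) {r r' : ℕ} (h : r ≤ r') : lam L r' ≤ lam L r := by
  rcases lam_ex L r' with h1 | ⟨e, he, h1, h2⟩
  · omega
  · rw [← h2]
    exact lam_ge L r e he (h.trans h1)

/-- The number of free cells in row `r`. -/
def mu (L : List ℚ) (r : ℕ) : ℕ := 23 - lam L (r + 1)

lemma mu_bd (L : List ℚ) : Bd 9 23 (mu L) := by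
  constructor
  · intro i j hij _
    have := lam_anti L (show i + 1 ≤ j + 1 by omega)
    unfold mu
    omega
  · intro i _
    unfold mu
    omega

/-- All labels are harmless. -/
def Safe (L : List ℚ) : Prop := ∀ e ∈ ent L, e.2.1 ≤ 23 ∧ e.2.2 ≤ 9

lemma Safe.lam_le {L : List ℚ} (h : Safe L) (r : ℕ) : lam L r ≤ 23 := by
  rcases lam_ex L r with h1 | ⟨e, he, h1, h2⟩
  · omega
  · rw [← h2]
    exact (h e he).1

lemma mu_cons (L : List ℚ) (q : ℚ) :
    mu (q :: L) = mv (labJ L q - 1) (23 - labI L q) (mu L) := by
  funext r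
  have := labJ_pos L q
  unfold mu mv
  simp only [lam]
  by_cases h : r + 1 ≤ labJ L q
  · rw [if_pos h, if_pos (by omega)]
    omega
  · rw [if_neg h, if_neg (by omega)]

/-- Every harmless move is a move of the game on Young diagrams. -/
lemma moveOK_of_play {L : List ℚ} {q : ℚ} (hq : q ∉ L)
    (hi : labI L q ≤ 23) (hj : labJ L q ≤ 9) :
    MoveOK (mu L) (labJ L q - 1) (23 - labI L q) := by
  have hip := labI_pos L q
  have hjp := labJ_pos L q
  have hlam : lam L (labJ L q) < labI L q := by
    by_contra hcon
    rcases lam_ex L (labJ L q) with h | ⟨e, he, h1, h2⟩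
    · omega
    · rcases lt_trichotomy e.1 q with h | h | h
      · have := labI_gt L q e he h
        omega
      · exact hq (h ▸ ent_mem L e he)
      · have := labJ_gt L q e he h
        omega
  have e1 : mu L (labJ L q - 1) = 23 - lam L (labJ L q) := by
    unfold mu
    rw [show labJ L q - 1 + 1 = labJ L q by omega]
  refine ⟨by omega, by omega, ?_⟩
  -- the two kinds of moves
  have hV : 1 ≤ lam L (labJ L q) → labI L q ≤ lam L (labJ L q) + 1 →
      (23 - labI L q + 1 = mu L (labJ L q - 1) ∧ mu L (labJ L q - 1) ≤ 22) := by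
    intro h1 h2
    rw [e1]
    omega
  have hH : 2 ≤ labJ L q → labI L q ≤ lam L (labJ L q - 1) →
      (1 ≤ labJ L q - 1 ∧ mu L (labJ L q - 1 - 1) ≤ 23 - labI L q) := by
    intro h1 h2
    refine ⟨by omega, ?_⟩
    unfold mu
    rw [show labJ L q - 1 - 1 + 1 = labJ L q - 1 by omega]
    omega
  rcases labI_ex L q with h1 | ⟨x, hx, h1, h2⟩
  · rcases labJ_ex L q with h3 | ⟨y, hy, h3, h4⟩
    · -- the sequence is empty
      right; right
      have hL : L = [] := by
        cases L with
        | nil => rfl
        | cons x L =>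
            exfalso
            have hmem : (x, labI L x, labJ L x) ∈ ent (x :: L) := List.mem_cons_self
            rcases lt_trichotomy x q with h | h | h
            · have := labI_gt (x :: L) q _ hmem h
              have := labI_pos L x
              simp only at *
              omega
            · exact hq (h ▸ List.mem_cons_self)
            · have := labJ_gt (x :: L) q _ hmem h
              have := labJ_pos L x
              simp only at *
              omega
      subst hL
      refine ⟨fun i _ => rfl, rfl, rfl⟩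
    · right; left
      have hyp := ent_pos L y hy
      apply hH
      · omega
      · rw [h1]
        have := lam_ge L (labJ L q - 1) y hy (by omega)
        omega
  · rcases labJ_ex L q with h3 | ⟨y, hy, h3, h4⟩
    · left
      have hxp := ent_pos L x hx
      have := lam_ge L (labJ L q) x hx (by omega)
      apply hV
      · omega
      · omega
    · have hxp := ent_pos L x hx
      have hyp := ent_pos L y hy
      rcases ent_cmp L x y hx hy (h1.trans h3) with h | h
      · left
        have := lam_ge L (labJ L q) x hx (by omega)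
        apply hV
        · omega
        · omega
      · right; left
        have := lam_ge L (labJ L q - 1) y hy (by omega)
        apply hH
        · omega
        · omega

lemma gap_above : ∀ (L : List ℚ) (x : ℚ), ∃ q, x < q ∧ ∀ y ∈ L, y ≤ x ∨ q < y
  | [], x => ⟨x + 1, by linarith, by simp⟩
  | z :: L, x => by
      obtain ⟨q, h1, h2⟩ := gap_above L x
      by_cases hz : z ≤ x
      · refine ⟨q, h1, fun y hy => ?_⟩
        rcases List.mem_cons.mp hy with rfl | hy
        · exact Or.inl hz
        · exact h2 y hy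
      · rw [not_le] at hz
        refine ⟨min q ((x + z) / 2), lt_min h1 (by linarith), fun y hy => ?_⟩
        rcases List.mem_cons.mp hy with rfl | hy
        · exact Or.inr (min_lt_of_right_lt (by linarith))
        · rcases h2 y hy with h | h
          · exact Or.inl h
          · exact Or.inr (min_lt_of_left_lt h)

lemma gap_below : ∀ (L : List ℚ) (x : ℚ), ∃ q, q < x ∧ ∀ y ∈ L, x ≤ y ∨ y < q
  | [], x => ⟨x - 1, by linarith, by simp⟩
  | z :: L, x => by
      obtain ⟨q, h1, h2⟩ := gap_below L x
      by_cases hz : x ≤ z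
      · refine ⟨q, h1, fun y hy => ?_⟩
        rcases List.mem_cons.mp hy with rfl | hy
        · exact Or.inl hz
        · exact h2 y hy
      · rw [not_le] at hz
        refine ⟨max q ((x + z) / 2), max_lt h1 (by linarith), fun y hy => ?_⟩
        rcases List.mem_cons.mp hy with rfl | hy
        · exact Or.inr (lt_max_of_lt_right (by linarith))
        · rcases h2 y hy with h | h
          · exact Or.inl h
          · exact Or.inr (lt_max_of_lt_left h)

lemma exists_max_ent (l : List (ℚ × ℕ × ℕ)) (p : ℚ × ℕ × ℕ → Prop) (h : ∃ e ∈ l, p e) :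
    ∃ e ∈ l, p e ∧ ∀ f ∈ l, p f → f.1 ≤ e.1 := by
  classical
  obtain ⟨e0, he0, hp0⟩ := h
  obtain ⟨e, he, hmax⟩ := Finset.exists_max_image (l.toFinset.filter p) (fun e => e.1)
    ⟨e0, by simp [he0, hp0]⟩
  simp only [Finset.mem_filter, List.mem_toFinset] at he hmax
  exact ⟨e, he.1, he.2, fun f hf hpf => hmax f ⟨hf, hpf⟩⟩

lemma exists_min_ent (l : List (ℚ × ℕ × ℕ)) (p : ℚ × ℕ × ℕ → Prop) (h : ∃ e ∈ l, p e) :
    ∃ e ∈ l, p e ∧ ∀ f ∈ l, p f → e.1 ≤ f.1 := by
  classical
  obtain ⟨e0, he0, hp0⟩ := h
  obtain ⟨e, he, hmax⟩ := Finset.exists_min_image (l.toFinset.filter p) (fun e => e.1)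
    ⟨e0, by simp [he0, hp0]⟩
  simp only [Finset.mem_filter, List.mem_toFinset] at he hmax
  exact ⟨e, he.1, he.2, fun f hf hpf => hmax f ⟨hf, hpf⟩⟩

/-- Realising a cell at the end of a nonempty row. -/
lemma realise_V {L : List ℚ} (hn : L.Nodup) {j : ℕ} (hj : 1 ≤ j) (hl : 1 ≤ lam L j) :
    ∃ q, q ∉ L ∧ labI L q = lam L j + 1 ∧ labJ L q = j := by
  have hex : ∃ e ∈ ent L, j ≤ e.2.2 ∧ e.2.1 = lam L j := by
    rcases lam_ex L j with h | h
    · omega
    · exact h
  obtain ⟨e0, he0, h01, h02⟩ := hex
  obtain ⟨e, he, hp, hmax⟩ := exists_max_ent (ent L) (fun e => j ≤ e.2.2) ⟨e0, he0, h01⟩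
  obtain ⟨q, hq1, hq2⟩ := gap_above L e.1
  have hqL : q ∉ L := by
    intro h
    rcases hq2 q h with h | h
    · exact absurd hq1 (not_lt.mpr h)
    · exact absurd h (lt_irrefl _)
  refine ⟨q, hqL, le_antisymm ?_ ?_, le_antisymm ?_ ?_⟩
  · rcases labI_ex L q with h | ⟨f, hf, h1, h2⟩
    · omega
    · rw [h2]
      have hfe : f.1 ≤ e.1 := by
        rcases hq2 f.1 (ent_mem L f hf) with h | h
        · exact h
        · exact absurd h1 (not_lt.mpr h.le)
      by_cases hfj : j ≤ f.2.2
      · have := lam_ge L j f hf hfj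
        omega
      · rcases hfe.lt_or_eq with h | h
        · rcases ent_cmp L f e hf he h with h3 | h3
          · omega
          · have := lam_ge L j e he hp
            omega
        · have := ent_uniq L f e hn hf he h
          subst this
          exact absurd hp hfj
  · rw [← h02]
    exact labI_gt L q e0 he0 ((hmax e0 he0 h01).trans_lt hq1)
  · rcases labJ_ex L q with h | ⟨f, hf, h1, h2⟩
    · omega
    · rw [h2]
      by_contra hcon
      have := hmax f hf (by omega)
      exact absurd (hq1.trans h1) (not_lt.mpr this)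
  · rcases Nat.lt_or_ge j 2 with h | h
    · have := labJ_pos L q
      omega
    · obtain ⟨f, hf, h1, h2⟩ := ent_predJ L e he (by omega)
      have hqf : q < f.1 := by
        rcases hq2 f.1 (ent_mem L f hf) with h3 | h3
        · exact absurd h1 (not_lt.mpr h3)
        · exact h3
      have := labJ_gt L q f hf hqf
      omega

/-- Realising a cell on top of a row. -/
lemma realise_H {L : List ℚ} (hn : L.Nodup) {i j : ℕ} (hj : 2 ≤ j) (hi : 1 ≤ i)
    (hl : lam L j < i) (hl' : i ≤ lam L (j - 1)) :
    ∃ q, q ∉ L ∧ labI L q = i ∧ labJ L q = j := by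
  have hex : ∃ e ∈ ent L, j - 1 ≤ e.2.2 ∧ e.2.1 = lam L (j - 1) := by
    rcases lam_ex L (j - 1) with h | h
    · omega
    · exact h
  obtain ⟨e0, he0, h01, h02⟩ := hex
  obtain ⟨e, he, hp, hmin⟩ := exists_min_ent (ent L) (fun e => i ≤ e.2.1)
    ⟨e0, he0, by omega⟩
  obtain ⟨q, hq1, hq2⟩ := gap_below L e.1
  have hqL : q ∉ L := by
    intro h
    rcases hq2 q h with h | h
    · exact absurd hq1 (not_lt.mpr h)
    · exact absurd h (lt_irrefl _)
  refine ⟨q, hqL, le_antisymm ?_ ?_, le_antisymm ?_ ?_⟩
  · rcases labI_ex L q with h | ⟨f, hf, h1, h2⟩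
    · omega
    · rw [h2]
      by_contra hcon
      have := hmin f hf (by omega)
      exact absurd (h1.trans hq1) (not_lt.mpr this)
  · rcases Nat.lt_or_ge i 2 with h | h
    · have := labI_pos L q
      omega
    · obtain ⟨f, hf, h1, h2⟩ := ent_predI L e he (by omega)
      have hqf : f.1 < q := by
        rcases hq2 f.1 (ent_mem L f hf) with h3 | h3
        · exact absurd h1 (not_lt.mpr h3)
        · exact h3
      have := labI_gt L q f hf hqf
      omega
  · rcases labJ_ex L q with h | ⟨f, hf, h1, h2⟩
    · omega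
    · rw [h2]
      have hfe : e.1 ≤ f.1 := by
        rcases hq2 f.1 (ent_mem L f hf) with h | h
        · exact h
        · exact absurd h1 (not_lt.mpr h.le)
      by_contra hcon
      have hfi : f.2.1 < i := by
        by_contra hc
        have := lam_ge L j f hf (by omega)
        omega
      rcases hfe.lt_or_eq with h | h
      · rcases ent_cmp L e f he hf h with h3 | h3
        · have := lam_ge L j e he (by omega)
          omega
        · omega
      · have := ent_uniq L e f hn he hf h
        subst this
        omega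
  · have h1 := labJ_gt L q e0 he0 (hq1.trans_le (hmin e0 he0 (by omega)))
    omega

/-- Every move of the game on Young diagrams can be realised. -/
lemma play_of_moveOK {L : List ℚ} (hn : L.Nodup) (hs : Safe L) {J y : ℕ}
    (h : MoveOK (mu L) J y) :
    ∃ q, q ∉ L ∧ labI L q = 23 - y ∧ labJ L q = J + 1 := by
  obtain ⟨hJ, hy, hc⟩ := h
  have h23 := hs.lam_le (J + 1)
  unfold mu at hy
  rcases hc with ⟨h1, h2⟩ | ⟨h1, h2⟩ | ⟨h1, h2, h3⟩
  · unfold mu at h1 h2
    obtain ⟨q, hq, h3, h4⟩ := realise_V hn (show 1 ≤ J + 1 by omega)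
      (show 1 ≤ lam L (J + 1) by omega)
    exact ⟨q, hq, by omega, h4⟩
  · unfold mu at h2
    rw [show J - 1 + 1 = J by omega] at h2
    obtain ⟨q, hq, h3, h4⟩ := realise_H hn (show 2 ≤ J + 1 by omega)
      (show 1 ≤ 23 - y by omega) (show lam L (J + 1) < 23 - y by omega)
      (show 23 - y ≤ lam L (J + 1 - 1) by rw [Nat.add_sub_cancel]; omega)
    exact ⟨q, hq, h3, h4⟩
  · subst h2 h3
    have hL : L = [] := by
      cases L with
      | nil => rfl
      | cons x L =>
          exfalso
          have hmem : (x, labI L x, labJ L x) ∈ ent (x :: L) := List.mem_cons_self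
          have h4 := lam_ge (x :: L) 1 _ hmem (labJ_pos L x)
          have h5 := labI_pos L x
          have h6 : 23 - lam (x :: L) 1 = 23 := h1 0 (by norm_num)
          simp only at h4
          omega
    subst hL
    exact ⟨0, by simp, rfl, rfl⟩

end Pool.Agent.Lib.MP_61ed4e_co
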