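import Pool.Agent.Lib.MP_61ed4e_co.Labels
import Pool.Agent.Lib.MP_61ed4e_co.Game
import Pool.Agent.Lib.MP_61ed4e_co.CheckA
import Pool.Agent.Lib.MP_61ed4e_co.CheckB
import Pool.Agent.Lib.MP_61ed4e_co.CheckC
import Pool.Agent.Lib.MP_61ed4e_co.CheckD
import Pool.Agent.Lib.MP_61ed4e_co.CheckE
import Pool.Agent.Lib.MP_61ed4e_co.CheckF
import Pool.Agent.Lib.MP_61ed4e_co.CheckG

/-!
# The second player wins the game with parameters `25, 11`
-/

namespace Pool.Agent.Lib.MP_61ed4e_co

/-! ### Labels and subsequences -/

lemma chainI : ∀ (L : List ℚ) (q : ℚ), ∃ t : List ℚ, t.Sublist L ∧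
    (q :: t).Pairwise (fun x y => y < x) ∧ t.length + 1 = labI L q
  | [], q => ⟨[], List.Sublist.refl _, by simp, rfl⟩
  | x :: L, q => by
      obtain ⟨t, h1, h2, h3⟩ := chainI L q
      by_cases hx : x < q
      · rcases le_total (labI L x + 1) (labI L q) with h | h
        · refine ⟨t, h1.cons x, h2, ?_⟩
          simp only [labI]
          rw [if_pos hx, max_eq_right h, h3]
        · obtain ⟨u, h4, h5, h6⟩ := chainI L x
          refine ⟨x :: u, h4.cons_cons x, ?_, ?_⟩
          · rw [List.pairwise_cons]
            refine ⟨fun y hy => ?_, h5⟩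
            rw [List.pairwise_cons] at h5
            rcases List.mem_cons.mp hy with rfl | hy
            · exact hx
            · exact (h5.1 y hy).trans hx
          · simp only [labI, List.length_cons]
            rw [if_pos hx, max_eq_left h, h6]
      · refine ⟨t, h1.cons x, h2, ?_⟩
        simp only [labI]
        rw [if_neg hx, h3]

lemma chainJ : ∀ (L : List ℚ) (q : ℚ), ∃ t : List ℚ, t.Sublist L ∧
    (q :: t).Pairwise (fun x y => x < y) ∧ t.length + 1 = labJ L q
  | [], q => ⟨[], List.Sublist.refl _, by simp, rfl⟩
  | x :: L, q => by
      obtain ⟨t, h1, h2, h3⟩ := chainJ L q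
      by_cases hx : q < x
      · rcases le_total (labJ L x + 1) (labJ L q) with h | h
        · refine ⟨t, h1.cons x, h2, ?_⟩
          simp only [labJ]
          rw [if_pos hx, max_eq_right h, h3]
        · obtain ⟨u, h4, h5, h6⟩ := chainJ L x
          refine ⟨x :: u, h4.cons_cons x, ?_, ?_⟩
          · rw [List.pairwise_cons]
            refine ⟨fun y hy => ?_, h5⟩
            rw [List.pairwise_cons] at h5
            rcases List.mem_cons.mp hy with rfl | hy
            · exact hx
            · exact hx.trans (h5.1 y hy)
          · simp only [labJ, List.length_cons]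
            rw [if_pos hx, max_eq_left h, h6]
      · refine ⟨t, h1.cons x, h2, ?_⟩
        simp only [labJ]
        rw [if_neg hx, h3]

lemma chainI_le : ∀ (L : List ℚ) (q : ℚ) (t : List ℚ), t.Sublist L →
    (q :: t).Pairwise (fun x y => y < x) → t.length + 1 ≤ labI L q
  | [], q, t, h, _ => by
      rw [List.sublist_nil] at h
      subst h
      simp [labI]
  | x :: L, q, t, h, hp => by
      cases h with
      | cons _ h => exact (chainI_le L q t h hp).trans (labI_le_cons x L q)
      | cons_cons _ h =>
          rename_i t'
          rw [List.pairwise_cons] at hp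
          have h1 := chainI_le L x t' h hp.2
          have hx : x < q := hp.1 x List.mem_cons_self
          simp only [labI, List.length_cons]
          rw [if_pos hx]
          exact le_trans (by omega) (le_max_left _ _)

lemma chainJ_le : ∀ (L : List ℚ) (q : ℚ) (t : List ℚ), t.Sublist L →
    (q :: t).Pairwise (fun x y => x < y) → t.length + 1 ≤ labJ L q
  | [], q, t, h, _ => by
      rw [List.sublist_nil] at h
      subst h
      simp [labJ]
  | x :: L, q, t, h, hp => by
      cases h with
      | cons _ h => exact (chainJ_le L q t h hp).trans (labJ_le_cons x L q)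
      | cons_cons _ h =>
          rename_i t'
          rw [List.pairwise_cons] at hp
          have h1 := chainJ_le L x t' h hp.2
          have hx : q < x := hp.1 x List.mem_cons_self
          simp only [labJ, List.length_cons]
          rw [if_pos hx]
          exact le_trans (by omega) (le_max_left _ _)

lemma entI_of_sublist : ∀ (L u : List ℚ), u.Sublist L → u.Pairwise (fun x y => y < x) →
    0 < u.length → ∃ e ∈ ent L, u.length ≤ e.2.1
  | [], u, h, _, h0 => by
      rw [List.sublist_nil] at h
      subst h
      simp at h0
  | x :: L, u, h, hp, h0 => by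
      cases h with
      | cons _ h =>
          obtain ⟨e, he, h1⟩ := entI_of_sublist L u h hp h0
          exact ⟨e, List.mem_cons_of_mem _ he, h1⟩
      | cons_cons _ h =>
          rename_i t
          exact ⟨(x, labI L x, labJ L x), List.mem_cons_self, chainI_le L x t h hp⟩

lemma entJ_of_sublist : ∀ (L u : List ℚ), u.Sublist L → u.Pairwise (fun x y => x < y) →
    0 < u.length → ∃ e ∈ ent L, u.length ≤ e.2.2
  | [], u, h, _, h0 => by
      rw [List.sublist_nil] at h
      subst h
      simp at h0
  | x :: L, u, h, hp, h0 => by
      cases h with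
      | cons _ h =>
          obtain ⟨e, he, h1⟩ := entJ_of_sublist L u h hp h0
          exact ⟨e, List.mem_cons_of_mem _ he, h1⟩
      | cons_cons _ h =>
          rename_i t
          exact ⟨(x, labI L x, labJ L x), List.mem_cons_self, chainJ_le L x t h hp⟩

lemma not_over {L : List ℚ} (h : ∀ e ∈ ent L, e.2.1 ≤ 24 ∧ e.2.2 ≤ 10) :
    ¬ Over 25 11 L.reverse := by
  rintro (⟨s, hs, hl, hp⟩ | ⟨s, hs, hl, hp⟩)
  · have h1 : s.reverse.Sublist L := by
      have := hs.reverse
      rwa [List.reverse_reverse] at this
    obtain ⟨e, he, h2⟩ := entI_of_sublist L s.reverse h1 (List.pairwise_reverse.mpr hp)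
      (by rw [List.length_reverse, hl]; norm_num)
    rw [List.length_reverse, hl] at h2
    have := (h e he).1
    omega
  · have h1 : s.reverse.Sublist L := by
      have := hs.reverse
      rwa [List.reverse_reverse] at this
    obtain ⟨e, he, h2⟩ := entJ_of_sublist L s.reverse h1 (List.pairwise_reverse.mpr hp)
      (by rw [List.length_reverse, hl]; norm_num)
    rw [List.length_reverse, hl] at h2
    have := (h e he).2
    omega

lemma over_of_labI {L : List ℚ} {q : ℚ} (h : 25 ≤ labI L q) : Over 25 11 (L.reverse ++ [q]) := by
  obtain ⟨t, h1, h2, h3⟩ := chainI L q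
  left
  refine ⟨((q :: t).take 25).reverse, ?_, ?_, ?_⟩
  · rw [← List.reverse_cons]
    exact ((List.take_sublist 25 (q :: t)).trans (h1.cons_cons q)).reverse
  · rw [List.length_reverse, List.length_take, List.length_cons]
    omega
  · rw [List.pairwise_reverse]
    exact h2.sublist (List.take_sublist 25 (q :: t))

lemma over_of_labJ {L : List ℚ} {q : ℚ} (h : 11 ≤ labJ L q) : Over 25 11 (L.reverse ++ [q]) := by
  obtain ⟨t, h1, h2, h3⟩ := chainJ L q
  right
  refine ⟨((q :: t).take 11).reverse, ?_, ?_, ?_⟩
  · rw [← List.reverse_cons]
    exact ((List.take_sublist 11 (q :: t)).trans (h1.cons_cons q)).reverse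
  · rw [List.length_reverse, List.length_take, List.length_cons]
    omega
  · rw [List.pairwise_reverse]
    exact h2.sublist (List.take_sublist 11 (q :: t))

/-! ### The strategy -/

lemma mv_sum_lt {μ : ℕ → ℕ} {J y : ℕ} (hJ : J ≤ 8) (hy : y < μ J) :
    ∑ r ∈ Finset.range 9, mv J y μ r < ∑ r ∈ Finset.range 9, μ r := by
  apply Finset.sum_lt_sum
  · intro r _
    unfold mv
    split_ifs
    · exact min_le_left _ _
    · exact le_rfl
  · refine ⟨J, Finset.mem_range.mpr (by omega), ?_⟩
    unfold mv
    rw [if_pos le_rfl]
    omega

lemma safe_cons {L : List ℚ} (hs : Safe L) {q : ℚ} (hi : labI L q ≤ 23) (hj : labJ L q ≤ 9) :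
    Safe (q :: L) := by
  intro e he
  simp only [ent, List.mem_cons] at he
  rcases he with rfl | he
  · exact ⟨hi, hj⟩
  · exact hs e he

/-- The player who is not to move wins at the positions of the kernel. -/
theorem strategy {f : ℕ → ℕ}
    (hf : ∀ μ, Bd 9 23 μ → (PP f μ ↔ ∀ J y, MoveOK μ J y → ¬ PP f (mv J y μ))) :
    ∀ (n : ℕ) (L : List ℚ), L.Nodup → Safe L → PP f (mu L) →
      ∑ r ∈ Finset.range 9, mu L r < n → ∀ q, q ∉ L →
      ¬ Over 25 11 (L.reverse ++ [q]) ∧ MoverWins 25 11 (L.reverse ++ [q])
  | 0, L, _, _, _, hsum, _, _ => by omega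
  | n + 1, L, hn, hs, hP, hsum, q, hq => by
      have hi24 : labI L q ≤ 24 := by
        rcases labI_ex L q with h | ⟨e, he, _, h⟩
        · omega
        · have := (hs e he).1
          omega
      have hj10 : labJ L q ≤ 10 := by
        rcases labJ_ex L q with h | ⟨e, he, _, h⟩
        · omega
        · have := (hs e he).2
          omega
      have hnot : ¬ Over 25 11 (L.reverse ++ [q]) := by
        rw [← List.reverse_cons]
        apply not_over
        intro e he
        simp only [ent, List.mem_cons] at he
        rcases he with rfl | he
        · exact ⟨hi24, hj10⟩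
        · have := hs e he
          omega
      refine ⟨hnot, ?_⟩
      have hmem : (q, labI L q, labJ L q) ∈ ent (q :: L) := List.mem_cons_self
      by_cases hi : labI L q ≤ 23
      · by_cases hj : labJ L q ≤ 9
        · -- the harmless case
          have hok := moveOK_of_play hq hi hj
          have hnP := (hf (mu L) (mu_bd L)).1 hP _ _ hok
          rw [← mu_cons, hf _ (mu_bd (q :: L))] at hnP
          push Not at hnP
          obtain ⟨J, y, hok', hP'⟩ := hnP
          have hn' : (q :: L).Nodup := List.nodup_cons.mpr ⟨hq, hn⟩
          have hs' : Safe (q :: L) := safe_cons hs hi hj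
          obtain ⟨r, hr, hri, hrj⟩ := play_of_moveOK hn' hs' hok'
          have hrj9 : labJ (q :: L) r ≤ 9 := by
            have := hok'.1
            omega
          have hri23 : labI (q :: L) r ≤ 23 := by omega
          have hs'' : Safe (r :: q :: L) := safe_cons hs' hri23 hrj9
          have hn'' : (r :: q :: L).Nodup := List.nodup_cons.mpr ⟨hr, hn'⟩
          have hmu : mu (r :: q :: L) = mv J y (mu (q :: L)) := by
            rw [mu_cons, hri, hrj]
            have h1 := hok'.2.1
            have h2 : mu (q :: L) J ≤ 23 := by unfold mu; omega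
            rw [show J + 1 - 1 = J by omega, show 23 - (23 - y) = y by omega]
          have hsum1 : ∑ r ∈ Finset.range 9, mu (q :: L) r < ∑ r ∈ Finset.range 9, mu L r := by
            rw [mu_cons]
            exact mv_sum_lt hok.1 hok.2.1
          have hsum2 : ∑ x ∈ Finset.range 9, mu (r :: q :: L) x <
              ∑ x ∈ Finset.range 9, mu (q :: L) x := by
            rw [hmu]
            exact mv_sum_lt hok'.1 hok'.2.1
          have ih := strategy hf n (r :: q :: L) hn'' hs'' (by rw [hmu]; exact hP') (by omega)
          have e1 : (r :: q :: L).reverse = L.reverse ++ [q] ++ [r] := by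
            rw [List.reverse_cons, List.reverse_cons]
          rw [e1] at ih
          have hmem' : ∀ s : ℚ, s ∉ L.reverse ++ [q] ++ [r] → s ∉ r :: q :: L := by
            intro s hs1 hs2
            apply hs1
            rw [← e1, List.mem_reverse]
            exact hs2
          refine MoverWins.later _ r ?_ ?_ (fun s hs1 => (ih s (hmem' s hs1)).1)
            (fun s hs1 => (ih s (hmem' s hs1)).2)
          · intro h
            apply hr
            rw [← List.reverse_cons, List.mem_reverse] at h
            exact h
          · rw [← e1]
            apply not_over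
            intro e he
            have := hs'' e he
            omega
        · -- the label of `q` is dangerous
          obtain ⟨r, hr1, hr2⟩ := gap_below (q :: L) q
          have hr3 : r ∉ q :: L := by
            intro h
            rcases hr2 r h with h | h
            · exact absurd hr1 (not_lt.mpr h)
            · exact absurd h (lt_irrefl _)
          refine MoverWins.now _ r ?_ ?_
          · intro h
            apply hr3
            rw [← List.reverse_cons, List.mem_reverse] at h
            exact h
          · rw [← List.reverse_cons]
            apply over_of_labJ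
            have := labJ_gt (q :: L) r _ hmem hr1
            simp only at this
            omega
      · obtain ⟨r, hr1, hr2⟩ := gap_above (q :: L) q
        have hr3 : r ∉ q :: L := by
          intro h
          rcases hr2 r h with h | h
          · exact absurd hr1 (not_lt.mpr h)
          · exact absurd h (lt_irrefl _)
        refine MoverWins.now _ r ?_ ?_
        · intro h
          apply hr3
          rw [← List.reverse_cons, List.mem_reverse] at h
          exact h
        · rw [← List.reverse_cons]
          apply over_of_labI
          have := labI_gt (q :: L) r _ hmem hr1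
          simp only at this
          omega

/-! ### The certificate -/

theorem S0_eq : S0 = 1 := by decide +kernel

theorem good : Good 23 [S23, S22, S21, S20, S19, S18, S17, S16, S15, S14, S13, S12, S11, S10, S9,
    S8, S7, S6, S5, S4, S3, S2, S1, S0] := by
  refine .succ 22 _ _ _ true ?_ (by decide) c23
  refine .succ 21 _ _ _ false ?_ (by decide) c22
  refine .succ 20 _ _ _ false ?_ (by decide) c21
  refine .succ 19 _ _ _ false ?_ (by decide) c20
  refine .succ 18 _ _ _ false ?_ (by decide) c19
  refine .succ 17 _ _ _ false ?_ (by decide) c18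
  refine .succ 16 _ _ _ false ?_ (by decide) c17
  refine .succ 15 _ _ _ false ?_ (by decide) c16
  refine .succ 14 _ _ _ false ?_ (by decide) c15
  refine .succ 13 _ _ _ false ?_ (by decide) c14
  refine .succ 12 _ _ _ false ?_ (by decide) c13
  refine .succ 11 _ _ _ false ?_ (by decide) c12
  refine .succ 10 _ _ _ false ?_ (by decide) c11
  refine .succ 9 _ _ _ false ?_ (by decide) c10
  refine .succ 8 _ _ _ false ?_ (by decide) c9
  refine .succ 7 _ _ _ false ?_ (by decide) c8
  refine .succ 6 _ _ _ false ?_ (by decide) c7
  refine .succ 5 _ _ _ false ?_ (by decide) c6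
  refine .succ 4 _ _ _ false ?_ (by decide) c5
  refine .succ 3 _ _ _ false ?_ (by decide) c4
  refine .succ 2 _ _ _ false ?_ (by decide) c3
  refine .succ 1 _ _ _ false ?_ (by decide) c2
  refine .succ 0 _ _ _ false ?_ (by decide) c1
  exact .zero S0 S0_eq

theorem start_bit : S23.testBit 7888724 = true := by decide +kernel

theorem rank_start : rank 8 (fun _ => 23) = 7888724 := by decide +kernel

/-- The second player wins the game with parameters `25, 11`. -/
theorem secondPlayerWins : SecondPlayerWins 25 11 := by
  obtain ⟨f, hl, hf⟩ := kernel_of_good good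
  have h23 : f 23 = S23 := by
    simp only [down, List.cons.injEq] at hl
    exact hl.1.symm
  intro q
  have h1 : PP f (mu []) := by
    have : mu [] = fun _ => 23 := rfl
    rw [this]
    unfold PP
    simp only
    rw [h23, rank_start]
    exact start_bit
  have h2 := strategy hf (∑ r ∈ Finset.range 9, mu [] r + 1) [] List.nodup_nil
    (by intro e he; simp [ent] at he) h1 (by omega) q (by simp)
  simpa using h2

/-- The two players cannot both have a winning strategy. -/
theorem not_both {a d : ℕ} {l : List ℚ} (h : MoverWins a d l)
    (h' : ∀ q, q ∉ l → ¬ Over a d (l ++ [q]) ∧ MoverWins a d (l ++ [q])) : False := by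
  induction h with
  | now l q hq ho => exact (h' q hq).1 ho
  | later l q hq ho hr hw ih =>
      have h1 := (h' q hq).2
      generalize hl : l ++ [q] = l' at h1 hr hw ih
      cases h1 with
      | now _ r hr' ho' => exact hr r hr' ho'
      | later _ r hr' ho' hr2 hw2 =>
          exact ih r hr' (fun s hs => ⟨hr2 s hs, hw2 s hs⟩)

end Pool.Agent.Lib.MP_61ed4e_co
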