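import Pool.Agent.Lib.MP_61ed4e_co.Checker

/-!
# Soundness of the bit-parallel checker
-/

namespace Pool.Agent.Lib.MP_61ed4e_co

/-- The number of monotone `k`-tuples with entries at most `y`. -/
def N (k y : ℕ) : ℕ := (y + k).choose k

/-- The contribution of the entry number `k` with value `y` to the rank. -/
def c (k y : ℕ) : ℕ := (y + k).choose (k + 1)

lemma N_zero (y : ℕ) : N 0 y = 1 := by simp [N]

lemma c_zero (k : ℕ) : c k 0 = 0 := by simp [c]

lemma c_succ (k y : ℕ) : c k (y + 1) = N (k + 1) y := by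
  unfold c N
  rw [show y + 1 + k = y + (k + 1) by ring]

lemma N_succ (k y : ℕ) : N (k + 1) y = N k y + c k y := by
  unfold c N
  rw [show y + (k + 1) = (y + k) + 1 by ring, Nat.choose_succ_succ]

lemma N_pos (k y : ℕ) : 0 < N k y := by
  unfold N
  exact Nat.choose_pos (by omega)

lemma N_mono (k : ℕ) {y y' : ℕ} (h : y ≤ y') : N k y ≤ N k y' := by
  unfold N
  exact Nat.choose_le_choose _ (by omega)

lemma c_mono (k : ℕ) {y y' : ℕ} (h : y ≤ y') : c k y ≤ c k y' := by
  unfold c
  exact Nat.choose_le_choose _ (by omega)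

lemma c_succ' (k y : ℕ) : c k (y + 1) = N k y + c k y := by
  rw [c_succ, N_succ]

/-- The rank of a monotone tuple. -/
def rank : ℕ → (ℕ → ℕ) → ℕ
  | 0, _ => 0
  | k + 1, μ => rank k μ + c k (μ k)

/-- Monotone with `k` entries at most `z`. -/
def Bd (k z : ℕ) (μ : ℕ → ℕ) : Prop :=
  (∀ i j, i ≤ j → j < k → μ i ≤ μ j) ∧ (∀ i, i < k → μ i ≤ z)

lemma Bd.pred {k z : ℕ} {μ : ℕ → ℕ} (h : Bd (k + 1) z μ) : Bd k (μ k) μ :=
  ⟨fun i j hij hj => h.1 i j hij (by omega), fun i hi => h.1 i k hi.le (by omega)⟩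

lemma Bd.le {k z z' : ℕ} {μ : ℕ → ℕ} (h : Bd (k + 1) z μ) (h' : μ k ≤ z') : Bd (k + 1) z' μ :=
  ⟨h.1, fun i hi => (h.1 i k (by omega) (by omega)).trans h'⟩

lemma rank_lt : ∀ (k z : ℕ) (μ : ℕ → ℕ), Bd k z μ → rank k μ < N k z
  | 0, z, μ, _ => by simp [rank, N_zero]
  | k + 1, z, μ, h => by
      have h1 := rank_lt k (μ k) μ h.pred
      have h2 : N (k + 1) (μ k) ≤ N (k + 1) z := N_mono _ (h.2 k (by omega))
      rw [N_succ] at h2
      simp only [rank]
      omega

lemma rank_congr : ∀ (k : ℕ) (μ ν : ℕ → ℕ), (∀ i, i < k → μ i = ν i) → rank k μ = rank k ν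
  | 0, _, _, _ => rfl
  | k + 1, μ, ν, h => by
      simp only [rank]
      rw [rank_congr k μ ν (fun i hi => h i (by omega)), h k (by omega)]

/-- Decreasing one entry. -/
lemma rank_dec : ∀ (k : ℕ) (μ : ℕ → ℕ) (j v : ℕ), j < k → μ j = v + 1 →
    rank k μ = rank k (Function.update μ j v) + N j v
  | 0, _, _, _, h, _ => by omega
  | k + 1, μ, j, v, hj, hv => by
      simp only [rank]
      rcases Nat.lt_succ_iff_lt_or_eq.mp hj with h | h
      · rw [rank_dec k μ j v h hv, Function.update_of_ne (by omega)]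
        ring
      · subst h
        rw [Function.update_self, hv, c_succ',
          rank_congr j (Function.update μ j v) μ
            (fun i hi => Function.update_of_ne (by omega) _ _)]
        ring

/-! ### Tables -/

/-- `N k y, N k (y + 1), …` (`n` entries). -/
def rowL (k : ℕ) : ℕ → ℕ → List ℕ
  | _, 0 => []
  | y, n + 1 => N k y :: rowL k (y + 1) n

/-- The rows number `k, k + 1, …` (`m` of them). -/
def rowsL (y n : ℕ) : ℕ → ℕ → List (List ℕ)
  | _, 0 => []
  | k, m + 1 => rowL k y n :: rowsL y n (k + 1) m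

lemma row0_eq : ∀ (n y : ℕ), row0 n = rowL 0 y n
  | 0, _ => rfl
  | n + 1, y => by
      simp only [row0, rowL, N_zero]
      rw [row0_eq n (y + 1)]

lemma psum_row (k : ℕ) : ∀ (n y : ℕ), psum (c k y) (rowL k y n) = rowL (k + 1) y n
  | 0, _ => rfl
  | n + 1, y => by
      have h : Nat.add (c k y) (N k y) = N (k + 1) y := by
        change c k y + N k y = _
        rw [N_succ, add_comm]
      simp only [rowL, psum]
      rw [h, ← c_succ, psum_row k n (y + 1)]

lemma table_eq : ∀ (m k n : ℕ), table m (rowL k 0 n) = rowsL 0 n k (m + 1)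
  | 0, _, _ => rfl
  | m + 1, k, n => by
      have h := psum_row k n 0
      rw [c_zero] at h
      rw [table, h, table_eq m (k + 1) n]
      rfl

lemma tls_rows (y n : ℕ) : ∀ (m k : ℕ), tls (rowsL y (n + 1) k m) = rowsL (y + 1) n k m
  | 0, _ => rfl
  | m + 1, k => by
      simp only [rowsL, tls]
      rw [tls_rows y n m (k + 1)]
      rfl

/-! ### Bit vectors -/

/-- `x` is the bit vector of the predicate `p` among the monotone `k`-tuples bounded by `y`. -/
def IsVec (k y x : ℕ) (p : (ℕ → ℕ) → Prop) : Prop :=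
  x < 2 ^ N k y ∧ ∀ μ, Bd k y μ → (x.testBit (rank k μ) = true ↔ p μ)

lemma lift_step {k y acc x : ℕ} {p : (ℕ → ℕ) → Prop} (ha : IsVec (k + 1) y acc p)
    (hx : IsVec k (y + 1) x p) :
    IsVec (k + 1) (y + 1) (Nat.lor acc (Nat.shiftLeft x (N (k + 1) y))) p := by
  have e1 : N (k + 1) (y + 1) = N k (y + 1) + N (k + 1) y := by
    rw [N_succ, c_succ]
  change IsVec (k + 1) (y + 1) (acc ||| (x <<< N (k + 1) y)) p
  constructor
  · apply Nat.or_lt_two_pow
    · exact ha.1.trans_le (Nat.pow_le_pow_right (by norm_num) (by omega))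
    · rw [Nat.shiftLeft_eq, e1, pow_add]
      exact Nat.mul_lt_mul_of_pos_right hx.1 (by positivity)
  · intro μ hμ
    rw [Nat.testBit_or, Nat.testBit_shiftLeft]
    rcases Nat.lt_or_ge (μ k) (y + 1) with h | h
    · have hb : Bd (k + 1) y μ := hμ.le (by omega)
      have h1 := rank_lt (k + 1) y μ hb
      rw [← ha.2 μ hb]
      simp [Nat.not_le.mpr h1]
    · have h2 : μ k = y + 1 := le_antisymm (hμ.2 k (by omega)) h
      have h3 : rank (k + 1) μ = rank k μ + N (k + 1) y := by
        simp only [rank]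
        rw [h2, c_succ]
      have h4 : acc.testBit (rank (k + 1) μ) = false := by
        apply Nat.testBit_lt_two_pow
        exact ha.1.trans_le (Nat.pow_le_pow_right (by norm_num) (by omega))
      have hb : Bd k (y + 1) μ := by
        have := hμ.pred
        rwa [h2] at this
      rw [h4, h3, ← hx.2 μ hb]
      simp

/-- A list of bit vectors with bounds `y, y + 1, …`. -/
def VecL (k : ℕ) (p : (ℕ → ℕ) → Prop) : ℕ → List ℕ → Prop
  | _, [] => True
  | y, x :: xs => IsVec k y x p ∧ VecL k p (y + 1) xs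

lemma lift_vec (k : ℕ) (p : (ℕ → ℕ) → Prop) : ∀ (l : List ℕ) (y acc : ℕ),
    IsVec (k + 1) y acc p → VecL k p (y + 1) l →
    VecL (k + 1) p (y + 1) (lift acc (rowL (k + 1) y (l.length + 1)) l)
  | [], _, _, _, _ => by simp [rowL, lift, VecL]
  | x :: xs, y, acc, ha, hl => by
      have h1 := lift_step ha hl.1
      exact ⟨h1, lift_vec k p xs (y + 1) _ h1 hl.2⟩

lemma lift_length : ∀ (l os : List ℕ) (acc : ℕ), l.length ≤ os.length →
    (lift acc os l).length = l.length
  | [], [], _, _ => rfl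
  | [], _ :: _, _, _ => rfl
  | x :: xs, [], _, h => by simp at h
  | x :: xs, o :: os, acc, h => by
      simp only [lift, List.length_cons]
      rw [lift_length xs os _ (by simpa using h)]

lemma rowL_length (k : ℕ) : ∀ (n y : ℕ), (rowL k y n).length = n
  | 0, _ => rfl
  | n + 1, y => by simp [rowL, rowL_length k n (y + 1)]

lemma cst_length (b : ℕ) : ∀ l : List ℕ, (cst b l).length = l.length
  | [] => rfl
  | _ :: xs => by simp [cst, cst_length b xs]

lemma lifts_vec (p : (ℕ → ℕ) → Prop) (y n : ℕ) : ∀ (m k : ℕ) (l : List ℕ),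
    l.length = n → (∀ k' μ, k ≤ k' → Bd (k' + 1) y μ → ¬ p μ) → VecL k p (y + 1) l →
    (VecL (k + m) p (y + 1) (lifts (rowsL y (n + 1) (k + 1) m) l) ∧
      (lifts (rowsL y (n + 1) (k + 1) m) l).length = n)
  | 0, k, l, hl, _, hv => ⟨hv, hl⟩
  | m + 1, k, l, hl, hp, hv => by
      simp only [rowsL, lifts]
      have h0 : IsVec (k + 1) y 0 p :=
        ⟨by positivity, fun μ hμ => by simpa using hp k μ le_rfl hμ⟩
      have h1 := lift_vec k p l y 0 h0 hv
      rw [hl] at h1
      have h2 : (lift 0 (rowL (k + 1) y (n + 1)) l).length = n := by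
        rw [lift_length _ _ _ (by rw [rowL_length, hl]; omega), hl]
      have h3 := lifts_vec p y n m (k + 1) _ h2
        (fun k' μ hk' hμ => hp k' μ (by omega) hμ) h1
      rw [show k + (m + 1) = k + 1 + m by ring]
      exact h3

lemma lst_vec (k : ℕ) (p : (ℕ → ℕ) → Prop) : ∀ (l : List ℕ) (y d : ℕ), 0 < l.length →
    VecL k p y l → IsVec k (y + l.length - 1) (lst d l) p
  | [], _, _, h, _ => by simp at h
  | [x], y, d, _, hv => by simpa [lst] using hv.1
  | x :: x' :: xs, y, d, _, hv => by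
      have := lst_vec k p (x' :: xs) (y + 1) x (by simp) hv.2
      simp only [lst, List.length_cons] at this ⊢
      rwa [show y + (xs.length + 1 + 1) - 1 = y + 1 + (xs.length + 1) - 1 by omega]

/-- The positions where row `j` has `v` free cells and can be decreased. -/
def Low (j v : ℕ) (μ : ℕ → ℕ) : Prop := μ j = v ∧ ∀ i, i < j → μ i < v

lemma rank_ge (k : ℕ) (μ : ℕ → ℕ) : c k (μ k) ≤ rank (k + 1) μ := by
  simp [rank]

lemma testBit_ones (n i : ℕ) : (ones n).testBit i = decide (i < n) := by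
  change (1 <<< n - 1).testBit i = _
  rw [Nat.one_shiftLeft, Nat.testBit_two_pow_sub_one]

lemma ones_lt (n : ℕ) : ones n < 2 ^ n := by
  change (1 <<< n - 1) < _
  rw [Nat.one_shiftLeft]
  have : 0 < 2 ^ n := by positivity
  omega

lemma base_vec (j v y : ℕ) (hy : v + 1 ≤ y) :
    IsVec (j + 1) y (Nat.shiftLeft (ones (N j v)) (N (j + 1) v)) (Low j (v + 1)) := by
  change IsVec (j + 1) y (ones (N j v) <<< N (j + 1) v) (Low j (v + 1))
  have e1 : N (j + 1) (v + 1) = N j (v + 1) + N (j + 1) v := by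
    rw [N_succ, c_succ]
  have e2 : N j v ≤ N j (v + 1) := N_mono j (by omega)
  have e3 : N (j + 1) (v + 1) ≤ N (j + 1) y := N_mono _ hy
  constructor
  · rw [Nat.shiftLeft_eq]
    calc ones (N j v) * 2 ^ N (j + 1) v < 2 ^ N j v * 2 ^ N (j + 1) v :=
          Nat.mul_lt_mul_of_pos_right (ones_lt _) (by positivity)
      _ = 2 ^ (N j v + N (j + 1) v) := by rw [pow_add]
      _ ≤ 2 ^ N (j + 1) y := Nat.pow_le_pow_right (by norm_num) (by omega)
  · intro μ hμ
    rw [Nat.testBit_shiftLeft, testBit_ones]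
    have h1 : c j (μ j) ≤ rank (j + 1) μ := rank_ge j μ
    have h2 : rank (j + 1) μ = rank j μ + c j (μ j) := rfl
    have h3 : rank (j + 1) μ < N (j + 1) (μ j) := rank_lt _ _ _ (hμ.le le_rfl)
    rw [← c_succ] at h3
    constructor
    · intro h
      simp only [Bool.and_eq_true, decide_eq_true_eq, ge_iff_le] at h
      obtain ⟨ha, hb⟩ := h
      have hc : c j (v + 1) ≤ rank (j + 1) μ := by rw [c_succ]; exact ha
      have hd : rank (j + 1) μ < c j (v + 2) := by
        rw [c_succ, e1]; omega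
      have he : μ j = v + 1 := by
        apply le_antisymm
        · by_contra hcon
          push Not at hcon
          have := c_mono j (show v + 2 ≤ μ j by omega)
          omega
        · by_contra hcon
          push Not at hcon
          have := c_mono j (show μ j + 1 ≤ v + 1 by omega)
          omega
      refine ⟨he, fun i hi => ?_⟩
      by_contra hcon
      push Not at hcon
      have hf : rank j μ < N j v := by
        rw [h2, he, c_succ] at hb
        omega
      obtain ⟨j', rfl⟩ : ∃ j', j = j' + 1 := ⟨j - 1, by omega⟩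
      have hg : v + 1 ≤ μ j' := hcon.trans (hμ.1 i j' (by omega) (by omega))
      have hh := rank_ge j' μ
      have hi' := c_mono j' hg
      rw [c_succ] at hi'
      omega
    · rintro ⟨he, hlow⟩
      have hb : Bd j v μ := ⟨fun i j' hij hj => hμ.1 i j' hij (by omega),
        fun i hi => by have := hlow i hi; omega⟩
      have hf := rank_lt j v μ hb
      simp only [Bool.and_eq_true, decide_eq_true_eq, ge_iff_le]
      rw [h2, he, c_succ]
      omega

lemma cst_vec (j v : ℕ) : ∀ (l : List ℕ) (y : ℕ), v + 1 ≤ y →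
    VecL (j + 1) (Low j (v + 1)) y (cst (Nat.shiftLeft (ones (N j v)) (N (j + 1) v)) l)
  | [], _, _ => trivial
  | _ :: xs, y, hy => ⟨base_vec j v y hy, cst_vec j v xs (y + 1) (by omega)⟩

/-- Correctness of the list of shift amounts and masks. -/
def MaskL (z v : ℕ) : ℕ → List (ℕ × ℕ) → Prop
  | _, [] => True
  | j, (d, k) :: ms => (j < 8 ∧ d = N j v ∧ IsVec 8 z k (Low j (v + 1))) ∧ MaskL z v (j + 1) ms

lemma masks_vec (v n : ℕ) : ∀ (m j : ℕ), j + m = 8 →
    (MaskL (v + n + 1) v j (masks (rowsL v (n + 2) j (m + 1))) ∧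
      (masks (rowsL v (n + 2) j (m + 1))).length = m)
  | 0, j, _ => by simp [rowsL, masks, MaskL]
  | m + 1, j, hj => by
      have ih := masks_vec v n m (j + 1) (by omega)
      have e : masks (rowsL v (n + 2) j (m + 1 + 1)) =
          (N j v, lst 0 (lifts (rowsL v (n + 2) (j + 2) m)
            (cst (Nat.shiftLeft (ones (N j v)) (N (j + 1) v)) (rowL j (v + 1) (n + 1))))) ::
          masks (rowsL v (n + 2) (j + 1) (m + 1)) := rfl
      rw [e]
      refine ⟨⟨⟨by omega, rfl, ?_⟩, ih.1⟩, by simp [ih.2]⟩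
      have h1 := lifts_vec (Low j (v + 1)) v (n + 1) m (j + 1)
        (cst (Nat.shiftLeft (ones (N j v)) (N (j + 1) v)) (rowL j (v + 1) (n + 1)))
        (by rw [cst_length, rowL_length])
        (by
          intro k' μ hk' hμ hlow
          have := hμ.2 j (by omega)
          have := hlow.1
          omega)
        (cst_vec j v _ (v + 1) le_rfl)
      have h2 := lst_vec _ _ _ _ 0 (by rw [h1.2]; omega) h1.1
      rw [h1.2] at h2
      rw [show j + 1 + m = 8 by omega, show v + 1 + (n + 1) - 1 = v + n + 1 by omega] at h2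
      exact h2

end Pool.Agent.Lib.MP_61ed4e_co
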