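import Pool.Agent.Lib.MP_61ed4e_co.Sound

/-!
# Soundness of the bit-parallel checker: the moves
-/

namespace Pool.Agent.Lib.MP_61ed4e_co

/-- The move which leaves `y` free cells in row `J` and at most `y` in the rows below. -/
def mv (J y : ℕ) (μ : ℕ → ℕ) : ℕ → ℕ := fun r => if r ≤ J then min (μ r) y else μ r

/-- `x` is the set of positions with property `p` (with bound `z`). -/
def Sem (z x : ℕ) (p : (ℕ → ℕ) → Prop) : Prop :=
  ∀ μ, Bd 8 z μ → (x.testBit (rank 8 μ) = true ↔ p μ)

lemma Bd.update {k z : ℕ} {μ : ℕ → ℕ} (h : Bd k z μ) {j v y : ℕ} (hl : Low j v μ)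
    (hy : y ≤ v) (hy' : ∀ i, i < j → μ i ≤ y) : Bd k z (Function.update μ j y) := by
  constructor
  · intro i j' hij hj'
    rcases eq_or_ne i j with rfl | hi
    · rcases eq_or_ne j' i with rfl | hj
      · rfl
      · rw [Function.update_self, Function.update_of_ne hj]
        have := h.1 i j' hij hj'
        have := hl.1
        omega
    · rcases eq_or_ne j' j with rfl | hj
      · rw [Function.update_self, Function.update_of_ne hi]
        exact hy' i (by omega)
      · rw [Function.update_of_ne hi, Function.update_of_ne hj]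
        exact h.1 i j' hij hj'
  · intro i hi'
    rcases eq_or_ne i j with rfl | hi
    · rw [Function.update_self]
      have := h.2 i hi'
      have := hl.1
      omega
    · rw [Function.update_of_ne hi]
      exact h.2 i hi'

/-- One of the moves in row `j`, not affecting other rows, leads to `s`. -/
def RP (s v j : ℕ) (μ : ℕ → ℕ) : Prop :=
  Low j v μ ∧ ∃ y, y < v ∧ (∀ i, i < j → μ i ≤ y) ∧
    s.testBit (rank 8 (Function.update μ j y)) = true

lemma sem_shift {z x j v k : ℕ} (hj : j < 8) (hk : IsVec 8 z k (Low j (v + 1))) :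
    Sem z (Nat.land (Nat.shiftLeft x (N j v)) k)
      (fun μ => Low j (v + 1) μ ∧ x.testBit (rank 8 (Function.update μ j v)) = true) := by
  intro μ hμ
  change ((x <<< N j v) &&& k).testBit _ = true ↔ _
  rw [Nat.testBit_and, Nat.testBit_shiftLeft]
  have h1 := hk.2 μ hμ
  by_cases hl : Low j (v + 1) μ
  · have h2 := h1.2 hl
    rw [h2, rank_dec 8 μ j v hj hl.1]
    simp [hl]
  · have h2 : k.testBit (rank 8 μ) = false := by
      rw [← Bool.not_eq_true]
      exact fun h => hl (h1.1 h)
    rw [h2]
    simp [hl]

lemma stepR_one {z s r j v k : ℕ} (hj : j < 8) (hk : IsVec 8 z k (Low j (v + 1)))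
    (hr : Sem z r (RP s v j)) :
    Sem z (Nat.land (Nat.shiftLeft (Nat.lor s r) (N j v)) k) (RP s (v + 1) j) := by
  intro μ hμ
  rw [sem_shift hj hk μ hμ]
  unfold RP
  refine and_congr_right (fun hl => ?_)
  have hb : Bd 8 z (Function.update μ j v) :=
    hμ.update hl (by omega) (fun i hi => by have := hl.2 i hi; omega)
  change (s ||| r).testBit _ = true ↔ _
  rw [Nat.testBit_or, Bool.or_eq_true, hr _ hb]
  constructor
  · rintro (h | ⟨h1, y, hy, h2, h3⟩)
    · exact ⟨v, by omega, fun i hi => by have := hl.2 i hi; omega, h⟩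
    · refine ⟨y, by omega, fun i hi => ?_, ?_⟩
      · have := h2 i hi
        rwa [Function.update_of_ne (by omega)] at this
      · rwa [Function.update_idem] at h3
  · rintro ⟨y, hy, h2, h3⟩
    rcases Nat.lt_succ_iff_lt_or_eq.mp hy with h | rfl
    · right
      refine ⟨⟨Function.update_self _ _ _, fun i hi => ?_⟩, y, h, fun i hi => ?_, ?_⟩
      · rw [Function.update_of_ne (by omega)]
        have := h2 i hi
        omega
      · rw [Function.update_of_ne (by omega)]
        exact h2 i hi
      · rwa [Function.update_idem]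
    · exact Or.inl h3

/-- A list of sets of positions, for `j, j + 1, …`. -/
def SemL (z : ℕ) (p : ℕ → (ℕ → ℕ) → Prop) : ℕ → List ℕ → Prop
  | _, [] => True
  | j, x :: xs => Sem z x (p j) ∧ SemL z p (j + 1) xs

lemma stepR_vec (z s v : ℕ) : ∀ (ms : List (ℕ × ℕ)) (R : List ℕ) (j : ℕ),
    MaskL z v j ms → SemL z (RP s v) j R → SemL z (RP s (v + 1)) j (stepR s ms R)
  | [], _, _, _, _ => trivial
  | _ :: _, [], _, _, _ => trivial
  | (d, k) :: ms, r :: rs, j, hm, hr => by
      obtain ⟨⟨hj, rfl, hk⟩, hm'⟩ := hm
      exact ⟨stepR_one hj hk hr.1, stepR_vec z s v ms rs (j + 1) hm' hr.2⟩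

lemma stepR_length (s : ℕ) : ∀ (ms : List (ℕ × ℕ)) (R : List ℕ), ms.length = R.length →
    (stepR s ms R).length = R.length
  | [], [], _ => rfl
  | [], _ :: _, h => by simp at h
  | _ :: _, [], h => by simp at h
  | (d, k) :: ms, r :: rs, h => by
      simp only [stepR, List.length_cons]
      rw [stepR_length s ms rs (by simpa using h)]

/-- One of the moves cutting the rows `j, …, J` leads to `s` (or `t`, when `J = 8`). -/
def TP (s t v j : ℕ) (μ : ℕ → ℕ) : Prop :=
  Low j (v + 1) μ ∧
    ((∃ J, j ≤ J ∧ J < 8 ∧ (∀ i, j ≤ i → i ≤ J → μ i = v + 1) ∧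
        s.testBit (rank 8 (mv J v μ)) = true) ∨
      ((∀ i, j ≤ i → i < 8 → μ i = v + 1) ∧ t.testBit (rank 8 (mv 8 v μ)) = true))

lemma mv_self {μ : ℕ → ℕ} {j v : ℕ} (hl : Low j (v + 1) μ) :
    mv j v μ = Function.update μ j v := by
  funext i
  unfold mv
  rcases lt_trichotomy i j with h | rfl | h
  · rw [Function.update_of_ne (by omega), if_pos (by omega)]
    have := hl.2 i h
    omega
  · rw [Function.update_self, if_pos le_rfl, hl.1]
    omega
  · rw [Function.update_of_ne (by omega), if_neg (by omega)]

lemma mv_update {μ : ℕ → ℕ} {j v J : ℕ} (hl : Low j (v + 1) μ) (hJ : j ≤ J) :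
    mv J v (Function.update μ j v) = mv J v μ := by
  funext i
  unfold mv
  rcases eq_or_ne i j with rfl | h
  · rw [Function.update_self, if_pos hJ, if_pos hJ, hl.1]
    omega
  · rw [Function.update_of_ne h]

lemma stepT_vec (z s t v : ℕ) : ∀ (ms : List (ℕ × ℕ)) (j : ℕ), j + ms.length = 8 →
    MaskL z v j ms → (SemL z (TP s t v) j (stepT s t ms) ∧
      ∀ μ, Bd 8 z μ → ((hd t (stepT s t ms)).testBit (rank 8 μ) = true ↔
        (if j = 8 then t.testBit (rank 8 μ) = true else TP s t v j μ)))
  | [], j, hj, _ => by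
      have : j = 8 := by simpa using hj
      subst this
      exact ⟨trivial, fun μ _ => by simp [stepT, hd]⟩
  | (d, k) :: ms, j, hj, hm => by
      obtain ⟨⟨hj', rfl, hk⟩, hm'⟩ := hm
      have ih := stepT_vec z s t v ms (j + 1) (by simp only [List.length_cons] at hj; omega) hm'
      have key : Sem z (Nat.land (Nat.shiftLeft (Nat.lor s (hd t (stepT s t ms))) (N j v)) k)
          (TP s t v j) := by
        intro μ hμ
        rw [sem_shift hj' hk μ hμ]
        unfold TP
        refine and_congr_right (fun hl => ?_)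
        have hb : Bd 8 z (Function.update μ j v) :=
          hμ.update hl (by omega) (fun i hi => by have := hl.2 i hi; omega)
        change (s ||| _).testBit _ = true ↔ _
        rw [Nat.testBit_or, Bool.or_eq_true, ih.2 _ hb]
        by_cases h8 : j + 1 = 8
        · rw [if_pos h8]
          have hj7 : j = 7 := by omega
          subst hj7
          constructor
          · rintro (h | h)
            · exact Or.inl ⟨7, le_rfl, by omega, fun i hi hi' => by
                rw [show i = 7 by omega]; exact hl.1, by rw [mv_self hl]; exact h⟩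
            · refine Or.inr ⟨fun i hi hi' => by rw [show i = 7 by omega]; exact hl.1, ?_⟩
              rw [rank_congr 8 (mv 8 v μ) (Function.update μ 7 v)]
              · exact h
              · intro i hi
                rw [← mv_self hl]
                unfold mv
                rw [if_pos (by omega), if_pos (by omega)]
          · rintro (⟨J, h1, h2, h3, h4⟩ | ⟨_, h⟩)
            · left
              rw [show J = 7 by omega, mv_self hl] at h4
              exact h4
            · right
              rw [rank_congr 8 (mv 8 v μ) (Function.update μ 7 v)] at h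
              · exact h
              · intro i hi
                rw [← mv_self hl]
                unfold mv
                rw [if_pos (by omega), if_pos (by omega)]
        · rw [if_neg h8]
          have hlow : Low (j + 1) (v + 1) (Function.update μ j v) ↔ μ (j + 1) = v + 1 := by
            unfold Low
            rw [Function.update_of_ne (by omega)]
            constructor
            · exact fun h => h.1
            · intro h
              refine ⟨h, fun i hi => ?_⟩
              rcases eq_or_ne i j with rfl | hne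
              · rw [Function.update_self]; omega
              · rw [Function.update_of_ne hne]
                exact hl.2 i (by omega)
          unfold TP
          rw [hlow, mv_update hl (show j ≤ 8 by omega)]
          constructor
          · rintro (h | ⟨h1, (⟨J, h2, h3, h4, h5⟩ | ⟨h2, h3⟩)⟩)
            · exact Or.inl ⟨j, le_rfl, hj', fun i hi hi' => by
                rw [show i = j by omega]; exact hl.1, by rw [mv_self hl]; exact h⟩
            · refine Or.inl ⟨J, by omega, h3, fun i hi hi' => ?_, ?_⟩
              · rcases eq_or_ne i j with rfl | hne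
                · exact hl.1
                · have := h4 i (by omega) hi'
                  rwa [Function.update_of_ne hne] at this
              · rwa [mv_update hl (show j ≤ J by omega)] at h5
            · refine Or.inr ⟨fun i hi hi' => ?_, h3⟩
              rcases eq_or_ne i j with rfl | hne
              · exact hl.1
              · have := h2 i (by omega) hi'
                rwa [Function.update_of_ne hne] at this
          · rintro (⟨J, h2, h3, h4, h5⟩ | ⟨h2, h3⟩)
            · rcases eq_or_ne J j with rfl | hne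
              · left
                rwa [mv_self hl] at h5
              · right
                refine ⟨h4 (j + 1) (by omega) (by omega), Or.inl ⟨J, by omega, h3, ?_, ?_⟩⟩
                · intro i hi hi'
                  rw [Function.update_of_ne (by omega)]
                  exact h4 i (by omega) hi'
                · rwa [mv_update hl (show j ≤ J by omega)]
            · right
              refine ⟨h2 (j + 1) (by omega) (by omega), Or.inr ⟨?_, h3⟩⟩
              intro i hi hi'
              rw [Function.update_of_ne (by omega)]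
              exact h2 i (by omega) hi'
      refine ⟨⟨key, ih.1⟩, fun μ hμ => ?_⟩
      rw [if_neg (by omega)]
      exact key μ hμ

lemma testBit_ors (i : ℕ) : ∀ (l : List ℕ) (acc : ℕ),
    ((ors acc l).testBit i = true ↔ acc.testBit i = true ∨ ∃ x ∈ l, x.testBit i = true)
  | [], acc => by simp [ors]
  | x :: xs, acc => by
      rw [ors, testBit_ors i xs]
      change (acc ||| x).testBit i = true ∨ _ ↔ _
      rw [Nat.testBit_or, Bool.or_eq_true]
      simp [or_assoc]

lemma semL_exists {z : ℕ} {p : ℕ → (ℕ → ℕ) → Prop} {μ : ℕ → ℕ} (hμ : Bd 8 z μ) :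
    ∀ (l : List ℕ) (j : ℕ), SemL z p j l →
      ((∃ x ∈ l, x.testBit (rank 8 μ) = true) ↔ ∃ i, j ≤ i ∧ i < j + l.length ∧ p i μ)
  | [], j, _ => by
      simp only [List.not_mem_nil, false_and, exists_false, List.length_nil, add_zero, false_iff,
        not_exists, not_and]
      intro i h1 h2
      omega
  | x :: xs, j, h => by
      have ih := semL_exists hμ xs (j + 1) h.2
      rw [List.exists_mem_cons_iff, ih, h.1 μ hμ]
      constructor
      · rintro (h1 | ⟨i, h1, h2, h3⟩)
        · exact ⟨j, le_rfl, by simp, h1⟩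
        · exact ⟨i, by omega, by simp only [List.length_cons]; omega, h3⟩
      · rintro ⟨i, h1, h2, h3⟩
        rcases eq_or_ne i j with rfl | hne
        · exact Or.inl h3
        · exact Or.inr ⟨i, by omega, by simp only [List.length_cons] at h2; omega, h3⟩

lemma stepT_length (s t : ℕ) : ∀ ms : List (ℕ × ℕ), (stepT s t ms).length = ms.length
  | [] => rfl
  | (d, k) :: ms => by simp [stepT, stepT_length s t ms]

/-- The first row alone is cut by one. -/
def FP (s v : ℕ) (μ : ℕ → ℕ) : Prop :=
  Low 0 (v + 1) μ ∧ s.testBit (rank 8 (Function.update μ 0 v)) = true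

/-- The last stage. -/
def LastP (s t : ℕ) (full : Bool) (v : ℕ) (μ : ℕ → ℕ) : Prop :=
  (full = true ∧ FP s v μ) ∨ (full = false ∧ ∃ j, j < 8 ∧ TP s t v j μ)

/-- All moves into `s` (or `t`, `u`). -/
def RunP (s t : ℕ) (full : Bool) (v n : ℕ) (μ : ℕ → ℕ) : Prop :=
  (∃ w, v ≤ w ∧ w ≤ v + n ∧ ∃ j, 1 ≤ j ∧ j < 8 ∧ RP s (w + 1) j μ) ∨
    (∃ w, v ≤ w ∧ w < v + n ∧ ∃ j, j < 8 ∧ TP s 0 w j μ) ∨ LastP s t full (v + n) μ

lemma run_sem (s t : ℕ) (full : Bool) : ∀ (n v : ℕ) (R : List ℕ) (tot : ℕ), R.length = 7 →
    SemL (v + n + 1) (RP s v) 1 R → ∀ μ, Bd 8 (v + n + 1) μ →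
      ((run s t full n (rowsL v (n + 2) 0 9) R tot).testBit (rank 8 μ) = true ↔
        tot.testBit (rank 8 μ) = true ∨ RunP s t full v n μ)
  | 0, v, R, tot, hR, hS, μ, hμ => by
      have hm := masks_vec v 0 8 0 rfl
      obtain ⟨hm1, hm2⟩ := hm
      simp only [run]
      generalize masks (rowsL v (0 + 2) 0 9) = ms at hm1 hm2 ⊢
      obtain _ | ⟨⟨d, k⟩, ms'⟩ := ms
      · simp at hm2
      have hm3 : ms'.length = 7 := by simpa using hm2
      have h1 := stepR_vec (v + 0 + 1) s v ms' R 1 hm1.2 hS
      have h1l : (stepR s ms' R).length = 7 := by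
        rw [stepR_length s ms' R (by omega), hR]
      rw [testBit_ors, testBit_ors]
      simp only [tl]
      rw [semL_exists hμ _ 1 h1, h1l]
      have h2 : (∃ x ∈ (bif full then stepF s ((d, k) :: ms') else stepT s t ((d, k) :: ms')),
          x.testBit (rank 8 μ) = true) ↔ LastP s t full (v + 0) μ := by
        cases full
        · have h3 := (stepT_vec (v + 0 + 1) s t v ((d, k) :: ms') 0 (by rw [hm2]) hm1).1
          simp only [cond_false]
          rw [semL_exists hμ _ 0 h3, stepT_length, hm2]
          unfold LastP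
          simp
        · obtain ⟨⟨_, rfl, hk⟩, _⟩ := hm1
          simp only [cond_true, stepF, List.mem_singleton, exists_eq_left]
          rw [sem_shift (by norm_num) hk μ hμ]
          unfold LastP FP
          simp
      rw [h2]
      unfold RunP
      constructor
      · rintro ((h | ⟨i, h3, h4, h5⟩) | h)
        · exact Or.inl h
        · exact Or.inr (Or.inl ⟨v, le_rfl, le_rfl, i, h3, by omega, h5⟩)
        · exact Or.inr (Or.inr (Or.inr h))
      · rintro (h | ⟨w, h3, h4, j, h5, h6, h7⟩ | ⟨w, h3, h4, _⟩ | h)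
        · exact Or.inl (Or.inl h)
        · have : w = v := by omega
          subst this
          exact Or.inl (Or.inr ⟨j, h5, by omega, h7⟩)
        · omega
        · exact Or.inr h
  | n + 1, v, R, tot, hR, hS, μ, hμ => by
      have hm := masks_vec v (n + 1) 8 0 rfl
      obtain ⟨hm1, hm2⟩ := hm
      simp only [run]
      rw [tls_rows v (n + 2) 9 0]
      generalize masks (rowsL v (n + 1 + 2) 0 9) = ms at hm1 hm2 ⊢
      obtain _ | ⟨⟨d, k⟩, ms'⟩ := ms
      · simp at hm2
      have hm3 : ms'.length = 7 := by simpa using hm2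
      have h1 := stepR_vec (v + (n + 1) + 1) s v ms' R 1 hm1.2 hS
      have h1l : (stepR s ms' R).length = 7 := by
        rw [stepR_length s ms' R (by omega), hR]
      simp only [tl]
      rw [show v + (n + 1) + 1 = v + 1 + n + 1 by ring] at h1
      rw [run_sem s t full n (v + 1) _ _ h1l h1 μ
        (by rwa [show v + (n + 1) + 1 = v + 1 + n + 1 by ring] at hμ)]
      rw [show v + (n + 1) + 1 = v + 1 + n + 1 by ring] at hμ hm1
      rw [testBit_ors, testBit_ors, semL_exists hμ _ 1 h1, h1l]
      have h3 := (stepT_vec (v + 1 + n + 1) s 0 v ((d, k) :: ms') 0 (by rw [hm2]) hm1).1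
      rw [semL_exists hμ _ 0 h3, stepT_length, hm2]
      unfold RunP
      rw [show v + 1 + n = v + (n + 1) by ring]
      constructor
      · rintro (((h | ⟨i, h3, h4, h5⟩) | ⟨i, h3, h4, h5⟩) | ⟨w, h3, h4, h5⟩ | ⟨w, h3, h4, h5⟩ | h)
        · exact Or.inl h
        · exact Or.inr (Or.inl ⟨v, le_rfl, by omega, i, h3, by omega, h5⟩)
        · exact Or.inr (Or.inr (Or.inl ⟨v, le_rfl, by omega, i, by omega, h5⟩))
        · exact Or.inr (Or.inl ⟨w, by omega, h4, h5⟩)
        · exact Or.inr (Or.inr (Or.inl ⟨w, by omega, h4, h5⟩))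
        · exact Or.inr (Or.inr (Or.inr h))
      · rintro (h | ⟨w, h3, h4, j, h5, h6, h7⟩ | ⟨w, h3, h4, j, h5, h6⟩ | h)
        · exact Or.inl (Or.inl (Or.inl h))
        · rcases eq_or_ne w v with rfl | hne
          · exact Or.inl (Or.inl (Or.inr ⟨j, h5, by omega, h7⟩))
          · exact Or.inr (Or.inl ⟨w, by omega, h4, j, h5, h6, h7⟩)
        · rcases eq_or_ne w v with rfl | hne
          · exact Or.inl (Or.inr ⟨j, by omega, by omega, h6⟩)
          · exact Or.inr (Or.inr (Or.inl ⟨w, by omega, h4, j, h5, h6⟩))
        · exact Or.inr (Or.inr (Or.inr h))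

lemma semL_zero (z s : ℕ) : ∀ (n j : ℕ), SemL z (RP s 0) j (List.replicate n 0)
  | 0, _ => trivial
  | n + 1, j => by
      refine ⟨fun μ hμ => ?_, semL_zero z s n (j + 1)⟩
      simp [RP]

lemma lst_rows (y n : ℕ) : ∀ (m k : ℕ) (d : List ℕ),
    lst d (rowsL y n k (m + 1)) = rowL (k + m) y n
  | 0, k, d => rfl
  | m + 1, k, d => by
      have := lst_rows y n m (k + 1) (rowL k y n)
      rw [show k + (m + 1) = k + 1 + m by ring, ← this]
      rfl

lemma lst_row (k : ℕ) : ∀ (n y d : ℕ), lst d (rowL k y (n + 1)) = N k (y + n)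
  | 0, y, d => rfl
  | n + 1, y, d => by
      have := lst_row k n (y + 1) (N k y)
      rw [show y + (n + 1) = y + 1 + n by ring, ← this]
      rfl

/-- What the check means. -/
theorem check_sound (n s t u : ℕ) (full : Bool) (h : check n s t u full = true) :
    s < 2 ^ N 8 (n + 1) ∧ ∀ μ, Bd 8 (n + 1) μ →
      (s.testBit (rank 8 μ) = true ↔ ¬ (RunP s t full 0 n μ ∨ u.testBit (rank 8 μ) = true)) := by
  unfold check at h
  have e1 : table 8 (row0 (n + 2)) = rowsL 0 (n + 2) 0 9 := by
    rw [row0_eq (n + 2) 0, table_eq]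
  rw [e1] at h
  have e2 : lst 0 (lst [] (rowsL 0 (n + 2) 0 9)) = N 8 (n + 1) := by
    rw [lst_rows 0 (n + 2) 8 0, lst_row]
    simp
  rw [e2] at h
  have hrun := run_sem s t full n 0 [0, 0, 0, 0, 0, 0, 0] 0 rfl
    (semL_zero _ s 7 1)
  rw [show 0 + n + 1 = n + 1 by ring] at hrun
  generalize run s t full n (rowsL 0 (n + 2) 0 9) [0, 0, 0, 0, 0, 0, 0] 0 = x at h hrun
  simp only [Bool.and_eq_true] at h
  obtain ⟨h1, h2⟩ := h
  have h1' : (x ||| u) &&& s = 0 := Nat.eq_of_beq_eq_true h1
  have h2' : (x ||| u) ||| s = ones (N 8 (n + 1)) := Nat.eq_of_beq_eq_true h2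
  constructor
  · calc s ≤ (x ||| u) ||| s := Nat.right_le_or
      _ = ones (N 8 (n + 1)) := h2'
      _ < 2 ^ N 8 (n + 1) := ones_lt _
  · intro μ hμ
    have h3 := hrun μ hμ
    have h4 : ((x ||| u) &&& s).testBit (rank 8 μ) = false := by rw [h1']; simp
    have h5 : ((x ||| u) ||| s).testBit (rank 8 μ) = true := by
      rw [h2', testBit_ones]
      simpa using rank_lt 8 (n + 1) μ hμ
    rw [Nat.testBit_and, Nat.testBit_or] at h4
    rw [Nat.testBit_or, Nat.testBit_or] at h5
    simp only [Nat.zero_testBit, Bool.false_eq_true, false_or] at h3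
    rw [← h3]
    generalize x.testBit (rank 8 μ) = a at *
    generalize u.testBit (rank 8 μ) = b at *
    generalize s.testBit (rank 8 μ) = c' at *
    revert h4 h5
    cases a <;> cases b <;> cases c' <;> simp

end Pool.Agent.Lib.MP_61ed4e_co
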